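import Mathlib

set_option autoImplicit false

/-!
# Coefficients of `exp (∑_{k ≥ 1} x_k z^k / k)`
-/

namespace Pool.Agent.H209R2.EH

open Finset

section
variable {A : Type*} [CommRing A] [Algebra ℚ A]

/-- the coefficients of `exp (∑_{k ≥ 1} x_k z^k / k)`, given by
`n a_n = x_1 a_{n-1} + x_2 a_{n-2} + ⋯ + x_n a_0`, `a_0 = 1` -/
noncomputable def expo (x : ℕ → A) : ℕ → A
  | 0 => 1
  | n + 1 => ((n : ℚ) + 1)⁻¹ • ∑ i : Fin (n + 1), x (i + 1) * expo x (n - i)

lemma expo_zero (x : ℕ → A) : expo x 0 = 1 := by
  unfold expo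
  rfl

lemma expo_succ (x : ℕ → A) (n : ℕ) :
    ((n : ℚ) + 1) • expo x (n + 1) = ∑ ij ∈ antidiagonal n, x (ij.1 + 1) * expo x ij.2 := by
  rw [expo, smul_smul, mul_inv_cancel₀ (by positivity), one_smul,
    Finset.Nat.sum_antidiagonal_eq_sum_range_succ (fun i j => x (i + 1) * expo x j),
    Finset.sum_range]

lemma expo_succ' (x : ℕ → A) (n : ℕ) :
    ((n : A) + 1) * expo x (n + 1) = ∑ ij ∈ antidiagonal n, x (ij.1 + 1) * expo x ij.2 := by
  rw [← expo_succ, Algebra.smul_def, map_add, map_natCast, map_one]

lemma expo_one (x : ℕ → A) : expo x 1 = x 1 := by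
  have h := expo_succ' x 0
  rw [Finset.Nat.antidiagonal_zero, Finset.sum_singleton, expo_zero] at h
  simpa using h

lemma expo_unique (x : ℕ → A) (f : ℕ → A) (h0 : f 0 = 1)
    (h : ∀ n : ℕ, ((n : ℚ) + 1) • f (n + 1) =
      ∑ ij ∈ antidiagonal n, x (ij.1 + 1) * f ij.2) :
    ∀ n, f n = expo x n := by
  intro n
  induction n using Nat.strong_induction_on with
  | _ n ih =>
    cases n with
    | zero => rw [h0, expo_zero]
    | succ n =>
      have e : ((n : ℚ) + 1) • f (n + 1) = ((n : ℚ) + 1) • expo x (n + 1) := by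
        rw [h, expo_succ]
        refine Finset.sum_congr rfl fun ij hij => ?_
        rw [Finset.HasAntidiagonal.mem_antidiagonal] at hij
        rw [ih ij.2 (by omega)]
      have hn : ((n : ℚ) + 1) ≠ 0 := by positivity
      have e2 := congrArg (fun y => ((n : ℚ) + 1)⁻¹ • y) e
      simp only [smul_smul, inv_mul_cancel₀ hn, one_smul] at e2
      exact e2

lemma expo_map {B : Type*} [CommRing B] [Algebra ℚ B] (f : A →+* B) (x : ℕ → A) (n : ℕ) :
    f (expo x n) = expo (fun k => f (x k)) n := by
  refine expo_unique (fun k => f (x k)) (fun n => f (expo x n)) ?_ ?_ n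
  · simp only [expo_zero, map_one]
  · intro n
    have e : ((n : ℚ) + 1) • f (expo x (n + 1)) = f (((n : ℚ) + 1) • expo x (n + 1)) := by
      have := map_rat_smul f ((n : ℚ) + 1) (expo x (n + 1))
      exact this.symm
    rw [e, expo_succ, map_sum]
    simp only [map_mul]

lemma expo_scale (x : ℕ → A) (y : A) (n : ℕ) :
    expo (fun k => x k * y ^ k) n = expo x n * y ^ n := by
  symm
  refine expo_unique _ (fun n => expo x n * y ^ n) ?_ ?_ n
  · simp [expo_zero]
  · intro n
    rw [← smul_mul_assoc, expo_succ, Finset.sum_mul]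
    refine Finset.sum_congr rfl fun ij hij => ?_
    rw [Finset.HasAntidiagonal.mem_antidiagonal] at hij
    have : y ^ (n + 1) = y ^ (ij.1 + 1) * y ^ ij.2 := by
      rw [← pow_add]
      congr 1
      omega
    rw [this]
    ring

/-- multiplication of the exponentials -/
lemma expo_add (x y : ℕ → A) (n : ℕ) :
    expo (fun k => x k + y k) n = ∑ ij ∈ antidiagonal n, expo x ij.1 * expo y ij.2 := by
  symm
  refine expo_unique _ (fun n => ∑ ij ∈ antidiagonal n, expo x ij.1 * expo y ij.2) ?_ ?_ n
  · simp [expo_zero]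
  · intro n
    have hX : ∀ x : ℕ → A, PowerSeries.derivative A (PowerSeries.mk (expo x))
        = PowerSeries.mk (fun k => x (k + 1)) * PowerSeries.mk (expo x) := by
      intro x
      ext m
      rw [PowerSeries.coeff_derivative, PowerSeries.coeff_mk,
        PowerSeries.coeff_mul]
      simp only [PowerSeries.coeff_mk]
      rw [← expo_succ, mul_comm, Algebra.smul_def, map_add, map_natCast, map_one]
    have hXY : PowerSeries.derivative A (PowerSeries.mk (expo x) * PowerSeries.mk (expo y))
        = PowerSeries.mk (fun k => x (k + 1) + y (k + 1))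
          * (PowerSeries.mk (expo x) * PowerSeries.mk (expo y)) := by
      rw [Derivation.leibniz, hX, hX, smul_eq_mul, smul_eq_mul]
      have : (PowerSeries.mk (fun k => x (k + 1) + y (k + 1)) : PowerSeries A)
          = PowerSeries.mk (fun k => x (k + 1)) + PowerSeries.mk (fun k => y (k + 1)) := by
        ext m
        simp
      rw [this]
      ring
    have := congrArg (PowerSeries.coeff n) hXY
    rw [PowerSeries.coeff_derivative, PowerSeries.coeff_mul,
      PowerSeries.coeff_mul] at this
    simp only [PowerSeries.coeff_mk, PowerSeries.coeff_mul] at this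
    rw [← this, mul_comm, Algebra.smul_def, map_add, map_natCast, map_one]

lemma expo_mem (S : Subring A) (hQ : ∀ c : ℚ, algebraMap ℚ A c ∈ S) (x : ℕ → A)
    (hx : ∀ k, x k ∈ S) (n : ℕ) : expo x n ∈ S := by
  induction n using Nat.strong_induction_on with
  | _ n ih =>
    cases n with
    | zero => rw [expo_zero]; exact S.one_mem
    | succ n =>
      rw [expo, Algebra.smul_def]
      exact S.mul_mem (hQ _) (S.sum_mem fun i _ => S.mul_mem (hx _) (ih _ (by omega)))

/-- Euler's identity -/
lemma expo_euler (x : ℕ → A) (n : ℕ) :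
    (n : A) * expo x n = ∑ ij ∈ antidiagonal n, (if ij.1 = 0 then 0 else x ij.1) * expo x ij.2 := by
  cases n with
  | zero => simp
  | succ n =>
    rw [Finset.Nat.sum_antidiagonal_succ]
    simp only [if_true, zero_mul, zero_add, Nat.succ_ne_zero, if_false]
    rw [← expo_succ, Algebra.smul_def, map_add, map_natCast, map_one]
    push_cast
    ring

end

end Pool.Agent.H209R2.EH
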