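import Mathlib

set_option autoImplicit false

/-!
# Rational functions regular at a point, and the composed place of `ℚ(q)(t)` at `t = 1`, `q = 1`
-/

namespace Pool.Agent.H209R2.EH

section one
variable {k : Type} [Field k]

/-- `x` is regular at `a` -/
def RegAt (a : k) (x : RatFunc k) : Prop := x.denom.eval a ≠ 0

/-- the value at `a` (meaningful if `x` is regular at `a`) -/
noncomputable def valAt (a : k) (x : RatFunc k) : k := RatFunc.eval (RingHom.id k) a x

lemma RegAt.eval₂ {a : k} {x : RatFunc k} (h : RegAt a x) :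
    Polynomial.eval₂ (RingHom.id k) a x.denom ≠ 0 := h

lemma RegAt.of_dvd {a : k} {x : RatFunc k} {r : Polynomial k} (h : x.denom ∣ r)
    (hr : r.eval a ≠ 0) : RegAt a x := by
  obtain ⟨s, rfl⟩ := h
  intro h0
  apply hr
  rw [Polynomial.eval_mul, h0, zero_mul]

lemma RegAt.add {a : k} {x y : RatFunc k} (hx : RegAt a x) (hy : RegAt a y) :
    RegAt a (x + y) :=
  RegAt.of_dvd (RatFunc.denom_add_dvd x y) (by
    rw [Polynomial.eval_mul]; exact mul_ne_zero hx hy)

lemma RegAt.mul {a : k} {x y : RatFunc k} (hx : RegAt a x) (hy : RegAt a y) :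
    RegAt a (x * y) :=
  RegAt.of_dvd (RatFunc.denom_mul_dvd x y) (by
    rw [Polynomial.eval_mul]; exact mul_ne_zero hx hy)

lemma RegAt.C (a c : k) : RegAt a (RatFunc.C c) := by
  unfold RegAt
  rw [RatFunc.denom_C]
  simp

lemma RegAt.neg {a : k} {x : RatFunc k} (hx : RegAt a x) : RegAt a (-x) := by
  have h := (RegAt.C a (-1)).mul hx
  rwa [map_neg, map_one, neg_one_mul] at h

/-- the local ring at `a` -/
noncomputable def Reg (a : k) : Subring (RatFunc k) where
  carrier := {x | RegAt a x}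
  mul_mem' := RegAt.mul
  one_mem' := by
    have := RegAt.C a (1 : k)
    rwa [map_one] at this
  add_mem' := RegAt.add
  zero_mem' := by
    have := RegAt.C a (0 : k)
    rwa [map_zero] at this
  neg_mem' := RegAt.neg

lemma mem_Reg {a : k} {x : RatFunc k} : x ∈ Reg a ↔ RegAt a x := Iff.rfl

lemma valAt_add {a : k} {x y : RatFunc k} (hx : RegAt a x) (hy : RegAt a y) :
    valAt a (x + y) = valAt a x + valAt a y :=
  RatFunc.eval_add (RingHom.id k) a hx.eval₂ hy.eval₂

lemma valAt_mul {a : k} {x y : RatFunc k} (hx : RegAt a x) (hy : RegAt a y) :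
    valAt a (x * y) = valAt a x * valAt a y :=
  RatFunc.eval_mul (RingHom.id k) a hx.eval₂ hy.eval₂

/-- evaluation as a ring homomorphism on the local ring -/
noncomputable def evR (a : k) : Reg a →+* k where
  toFun x := valAt a x
  map_one' := RatFunc.eval_one _ _
  map_zero' := RatFunc.eval_zero _ _
  map_mul' x y := valAt_mul x.2 y.2
  map_add' x y := valAt_add x.2 y.2

@[simp] lemma evR_apply (a : k) (x : Reg a) : evR a x = valAt a (x : RatFunc k) := rfl

lemma valAt_C (a c : k) : valAt a (RatFunc.C c) = c := by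
  unfold valAt
  rw [RatFunc.eval_C]
  rfl

lemma RegAt.X (a : k) : RegAt a (RatFunc.X : RatFunc k) := by
  unfold RegAt
  rw [RatFunc.denom_X]
  simp

lemma valAt_X (a : k) : valAt a (RatFunc.X : RatFunc k) = a := by
  unfold valAt
  rw [RatFunc.eval_X]

lemma inv_of_not_reg {a : k} {x : RatFunc k} (h : ¬ RegAt a x) :
    RegAt a x⁻¹ ∧ valAt a x⁻¹ = 0 := by
  unfold RegAt at h
  push Not at h
  have hx : x ≠ 0 := by
    rintro rfl
    rw [RatFunc.denom_zero] at h
    simp at h
  have hn : x.num.eval a ≠ 0 := by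
    intro h0
    obtain ⟨u, v, huv⟩ := RatFunc.isCoprime_num_denom x
    have := congrArg (Polynomial.eval a) huv
    simp [h0, h] at this
  have hr : RegAt a x⁻¹ := RegAt.of_dvd (RatFunc.denom_inv_dvd hx) hn
  refine ⟨hr, ?_⟩
  -- x⁻¹ * C num = denom
  have e : x⁻¹ * algebraMap _ (RatFunc k) x.num = algebraMap _ (RatFunc k) x.denom := by
    have h1 : x * algebraMap _ (RatFunc k) x.denom = algebraMap _ (RatFunc k) x.num := by
      have h2 := RatFunc.num_div_denom x
      have h3 : algebraMap _ (RatFunc k) x.denom ≠ 0 :=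
        RatFunc.algebraMap_ne_zero (RatFunc.denom_ne_zero x)
      rw [div_eq_iff h3] at h2
      exact h2.symm
    rw [← h1]
    field_simp
  have hp : ∀ p : Polynomial k, RegAt a (algebraMap _ (RatFunc k) p) := by
    intro p
    unfold RegAt
    rw [RatFunc.denom_algebraMap]
    simp
  have hv : ∀ p : Polynomial k, valAt a (algebraMap _ (RatFunc k) p) = p.eval a := by
    intro p
    unfold valAt
    rw [RatFunc.eval_algebraMap]
    simp
  have e2 := congrArg (valAt a) e
  have e3 : valAt a (x⁻¹ * algebraMap _ (RatFunc k) x.num)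
      = valAt a x⁻¹ * valAt a (algebraMap _ (RatFunc k) x.num) :=
    valAt_mul hr (hp _)
  rw [e3, hv, hv, h] at e2
  exact (mul_eq_zero.1 e2).resolve_right hn

lemma inv_of_val_ne {a : k} {x : RatFunc k} (h : RegAt a x) (h0 : valAt a x ≠ 0) :
    RegAt a x⁻¹ ∧ valAt a x⁻¹ = (valAt a x)⁻¹ := by
  have hx : x ≠ 0 := by
    rintro rfl
    exact h0 (RatFunc.eval_zero _ _)
  have hr : RegAt a x⁻¹ := by
    by_contra hcon
    have := (inv_of_not_reg hcon).2
    rw [inv_inv] at this
    exact h0 this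
  refine ⟨hr, ?_⟩
  have e : valAt a (x⁻¹ * x) = valAt a x⁻¹ * valAt a x := valAt_mul hr h
  rw [inv_mul_cancel₀ hx] at e
  have e1 : valAt a (1 : RatFunc k) = 1 := RatFunc.eval_one _ _
  rw [e1] at e
  exact eq_inv_of_mul_eq_one_left e.symm

end one

/-- `ℚ(q,t)`, as `ℚ(q)(t)`: rational functions in `t` over `ℚ(q)` -/
abbrev KK : Type := RatFunc (RatFunc ℚ)

/-- regular at `t = 1`, with value at `t = 1` regular at `q = 1` -/
def RegV (x : KK) : Prop := RegAt (1 : RatFunc ℚ) x ∧ RegAt (1 : ℚ) (valAt 1 x)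

lemma valAt_neg {k : Type} [Field k] {a : k} {x : RatFunc k} (hx : RegAt a x) :
    valAt a (-x) = - valAt a x := by
  have h := valAt_mul (RegAt.C a (-1)) hx
  rwa [map_neg, map_one, neg_one_mul, ← map_one RatFunc.C, ← map_neg, valAt_C, neg_one_mul] at h

lemma valAt_one {k : Type} [Field k] (a : k) : valAt a (1 : RatFunc k) = 1 := RatFunc.eval_one _ _
lemma valAt_zero {k : Type} [Field k] (a : k) : valAt a (0 : RatFunc k) = 0 :=
  RatFunc.eval_zero _ _

/-- the composed valuation ring -/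
noncomputable def V : Subring KK where
  carrier := {x | RegV x}
  mul_mem' := by
    rintro x y ⟨hx, hx'⟩ ⟨hy, hy'⟩
    refine ⟨hx.mul hy, ?_⟩
    rw [valAt_mul hx hy]
    exact hx'.mul hy'
  one_mem' := by
    refine ⟨(Reg (1 : RatFunc ℚ)).one_mem, ?_⟩
    rw [valAt_one]
    exact (Reg (1 : ℚ)).one_mem
  add_mem' := by
    rintro x y ⟨hx, hx'⟩ ⟨hy, hy'⟩
    refine ⟨hx.add hy, ?_⟩
    rw [valAt_add hx hy]
    exact hx'.add hy'
  zero_mem' := by
    refine ⟨(Reg (1 : RatFunc ℚ)).zero_mem, ?_⟩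
    rw [valAt_zero]
    exact (Reg (1 : ℚ)).zero_mem
  neg_mem' := by
    rintro x ⟨hx, hx'⟩
    refine ⟨hx.neg, ?_⟩
    rw [valAt_neg hx]
    exact hx'.neg

lemma mem_V {x : KK} : x ∈ V ↔ RegV x := Iff.rfl

lemma V_le_Reg : V ≤ Reg (1 : RatFunc ℚ) := fun _ hx => hx.1

/-- evaluation at `t = 1`, then `q = 1` -/
noncomputable def evV : V →+* ℚ where
  toFun x := valAt 1 (valAt 1 (x : KK))
  map_one' := by
    show valAt (1 : ℚ) (valAt (1 : RatFunc ℚ) (1 : KK)) = 1
    rw [valAt_one, valAt_one]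
  map_zero' := by
    show valAt (1 : ℚ) (valAt (1 : RatFunc ℚ) (0 : KK)) = 0
    rw [valAt_zero, valAt_zero]
  map_mul' x y := by
    show valAt (1 : ℚ) (valAt (1 : RatFunc ℚ) ((x : KK) * (y : KK))) = _
    rw [valAt_mul x.2.1 y.2.1, valAt_mul x.2.2 y.2.2]
  map_add' x y := by
    show valAt (1 : ℚ) (valAt (1 : RatFunc ℚ) ((x : KK) + (y : KK))) = _
    rw [valAt_add x.2.1 y.2.1, valAt_add x.2.2 y.2.2]

lemma evV_apply (x : V) : evV x = valAt 1 (valAt 1 (x : KK)) := rfl

/-- `V` is a valuation ring with residue map `evV` -/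
lemma V_inv {x : KK} (h : x ∉ V) : ∃ h' : x⁻¹ ∈ V, evV ⟨x⁻¹, h'⟩ = 0 := by
  by_cases h1 : RegAt (1 : RatFunc ℚ) x
  · have h2 : ¬ RegAt (1 : ℚ) (valAt 1 x) := fun h2 => h ⟨h1, h2⟩
    have h3 : valAt 1 x ≠ 0 := by
      intro h0
      rw [h0] at h2
      exact h2 (Reg (1 : ℚ)).zero_mem
    obtain ⟨h4, h5⟩ := inv_of_val_ne h1 h3
    obtain ⟨h6, h7⟩ := inv_of_not_reg h2
    refine ⟨⟨h4, by rw [h5]; exact h6⟩, ?_⟩
    rw [evV_apply]
    show valAt 1 (valAt 1 x⁻¹) = 0
    rw [h5, h7]
  · obtain ⟨h4, h5⟩ := inv_of_not_reg h1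
    refine ⟨⟨h4, by rw [h5]; exact (Reg (1 : ℚ)).zero_mem⟩, ?_⟩
    rw [evV_apply]
    show valAt 1 (valAt 1 x⁻¹) = 0
    rw [h5, valAt_zero]

/-- among finitely many nonzero elements there is one dividing... the others by an element of `V` -/
lemma exists_dominant {ι : Type*} (s : Finset ι) (c : ι → KK) (h : ∃ i ∈ s, c i ≠ 0) :
    ∃ i ∈ s, c i ≠ 0 ∧ ∀ j ∈ s, c j / c i ∈ V := by
  classical
  induction s using Finset.induction_on with
  | empty => simp at h
  | insert a s ha ih =>
    by_cases hs : ∃ i ∈ s, c i ≠ 0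
    · obtain ⟨i, hi, hci, hj⟩ := ih hs
      by_cases hca : c a / c i ∈ V
      · refine ⟨i, Finset.mem_insert_of_mem hi, hci, fun j hj' => ?_⟩
        rcases Finset.mem_insert.1 hj' with rfl | hj'
        · exact hca
        · exact hj j hj'
      · have hca0 : c a ≠ 0 := by
          intro h0
          rw [h0, zero_div] at hca
          exact hca V.zero_mem
        refine ⟨a, Finset.mem_insert_self _ _, hca0, fun j hj' => ?_⟩
        rcases Finset.mem_insert.1 hj' with rfl | hj'
        · rw [div_self hca0]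
          exact V.one_mem
        · have h1 := (V_inv hca).choose
          have h2 := V.mul_mem (hj j hj') h1
          have e : c j / c i * (c a / c i)⁻¹ = c j / c a := by
            field_simp
          rwa [e] at h2
    · obtain ⟨i, hi, hci⟩ := h
      push Not at hs
      rcases Finset.mem_insert.1 hi with rfl | hi
      · refine ⟨i, Finset.mem_insert_self _ _, hci, fun j hj' => ?_⟩
        rcases Finset.mem_insert.1 hj' with rfl | hj'
        · rw [div_self hci]
          exact V.one_mem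
        · rw [hs j hj', zero_div]
          exact V.zero_mem
      · exact absurd (hs i hi) hci

end Pool.Agent.H209R2.EH
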