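import Mathlib
import Pool.Agent.H209R2.EHExpo
import Pool.Agent.H209R2.EHPlace

set_option autoImplicit false

/-!
# Symmetric functions in plethystic notation and the operators `D_k`, `Q_{m,n}`, `Θ_{a,b}`

The ring `Λ` of symmetric functions over `ℚ(q,t)` is `MvPolynomial ℕ+ KK`, the polynomial ring in
the power sums `p_1, p_2, …`; the field `ℚ(q,t)` is `KK = RatFunc (RatFunc ℚ)`, the rational
functions in `t` over `ℚ(q)`.
-/

namespace Pool.Agent.H209R2.EH

open MvPolynomial Finset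

/-- the element `q` of `ℚ(q,t)` -/
noncomputable def qK : KK := RatFunc.C RatFunc.X
/-- the element `t` of `ℚ(q,t)` -/
noncomputable def tK : KK := RatFunc.X
/-- `M = (1 - q) (1 - t)` -/
noncomputable def MK : KK := (1 - qK) * (1 - tK)
/-- `M[p_k] = (1 - q^k) (1 - t^k)` -/
noncomputable def Mk (k : ℕ) : KK := (1 - qK ^ k) * (1 - tK ^ k)

/-- the ring of symmetric functions over `ℚ(q,t)` -/
abbrev Sym : Type := MvPolynomial ℕ+ KK

/-- the power sum `p_k`, `k ≥ 1` (and `0` for `k = 0`) -/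
noncomputable def pw : ℕ → Sym
  | 0 => 0
  | k + 1 => X k.succPNat

/-- the complete homogeneous symmetric functions: `∑ h_n z^n = exp (∑ p_k z^k / k)` -/
noncomputable def hh (n : ℕ) : Sym := expo pw n

/-- `(-1)^n e_n`, where `∑ e_n (-z)^n = exp (- ∑ p_k z^k / k)`; `0` for negative `n` -/
noncomputable def em (n : ℤ) : Sym := if 0 ≤ n then expo (fun k => - pw k) n.toNat else 0

/-- `h_n` for integer index, `h_n = 0` for `n < 0` -/
noncomputable def hZ (n : ℤ) : Sym := if 0 ≤ n then hh n.toNat else 0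

/-- the Schur function `s_l = det (h_{l_i - i + j})` of a partition `l` (a weakly decreasing list) -/
noncomputable def schur (l : List ℕ) : Sym :=
  Matrix.det (Matrix.of fun i j : Fin l.length => hZ ((l.get i : ℤ) - (i : ℤ) + (j : ℤ)))

/-- `q_d = ∑_{j + k = d - 1} (-q t)^{-j} s_{(j | k)}`, `(j | k) = (j + 1, 1^k)` -/
noncomputable def qq (d : ℕ) : Sym :=
  ∑ jk ∈ antidiagonal (d - 1),
    C ((-(qK * tK))⁻¹ ^ jk.1) * schur ((jk.1 + 1) :: List.replicate jk.2 1)

/-- the ring homomorphism `g ↦ g[x + c M y]`, `p_k ↦ p_k + c (1 - q^k) (1 - t^k) y^k`; here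
`y` is the variable of the polynomial ring `Λ[y]`, and `c` is a number -/
noncomputable def shift (c : KK) : Sym →ₐ[KK] Polynomial Sym :=
  aeval fun k : ℕ+ => Polynomial.C (X k) + Polynomial.monomial (k : ℕ) (C (c * Mk k))

/-- `D_k`: the coefficient of `z^k` in `g[x + M / z] ∑_n e_n (-z)^n` (with `y = 1 / z`: if
`g[x + M y] = ∑_i g_i y^i` then this is `∑_i g_i (-1)^(k+i) e_{k+i}`) -/
noncomputable def D (k : ℤ) : Sym →ₗ[KK] Sym where
  toFun g := (shift 1 g).sum fun i c => c * em (k + i)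
  map_add' g h := by
    rw [map_add, Polynomial.sum_add_index _ _ _ (fun i => zero_mul _) (fun i a b => add_mul _ _ _)]
  map_smul' c g := by
    rw [map_smul, RingHom.id_apply, Polynomial.sum_smul_index' _ _ _ (fun i => zero_mul _),
      Polynomial.sum_def, Polynomial.sum_def, Finset.smul_sum]
    exact Finset.sum_congr rfl fun i _ => smul_mul_assoc _ _ _

/-- the least `k ∈ ℕ` with `a ∣ b k + 1` -/
noncomputable def splitK (a b : ℕ) : ℕ := sInf {k | a ∣ b * k + 1}

/-- `l = (b k + 1) / a`, so that `a l - b k = 1` -/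
noncomputable def splitL (a b : ℕ) : ℕ := (b * splitK a b + 1) / a

lemma splitK_mem {a b : ℕ} (ha : 0 < a) (hab : Nat.Coprime a b) : a ∣ b * splitK a b + 1 := by
  have hne : {k | a ∣ b * k + 1}.Nonempty := by
    obtain ⟨k, hk⟩ := Nat.exists_mul_mod_eq_of_coprime (a - 1) hab.symm (by omega)
    refine ⟨k, ?_⟩
    have h2 : b * k % a = a - 1 := by
      rw [hk.2, Nat.mod_eq_of_lt (by omega)]
    have h3 := Nat.div_add_mod (b * k) a
    refine ⟨b * k / a + 1, ?_⟩
    rw [h2] at h3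
    rw [mul_add, mul_one]
    omega
  exact Nat.sInf_mem hne

lemma splitK_lt {a b : ℕ} (ha : 0 < a) (hab : Nat.Coprime a b) : splitK a b < a := by
  by_contra hcon
  push Not at hcon
  have h1 := splitK_mem ha hab
  have h2 : a ∣ b * (splitK a b - a) + 1 := by
    have e : b * splitK a b + 1 = b * (splitK a b - a) + 1 + a * b := by
      obtain ⟨c, hc⟩ := Nat.exists_eq_add_of_le hcon
      rw [hc, Nat.add_sub_cancel_left]
      ring
    rw [e] at h1
    exact (Nat.dvd_add_left (Dvd.intro b rfl)).1 h1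
  have h3 : splitK a b ≤ splitK a b - a := Nat.sInf_le h2
  omega

lemma splitL_pos {a b : ℕ} (ha : 0 < a) (hab : Nat.Coprime a b) : 0 < splitL a b := by
  have h1 := splitK_mem ha hab
  exact Nat.div_pos (Nat.le_of_dvd (by omega) h1) ha

/-- The operators `Q_{m,n}`. `Q_{0,n}` is multiplication by `q_n` (so `Q_{0,1}` is multiplication by
`q_1 = e_1`), `Q_{1,0} = σ D_r`, and for `m, n ≥ 1`, with `d = gcd(m,n)`, `(m,n) = (a d, b d)`:
`Q_{m,n} = τ M⁻¹ [Q_{u,v}, Q_{k,l}]`, where `(k,l) + (u,v) = (m,n)` and `k` is the least natural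
number such that `l = (b k + 1) / a` is an integer (so `a l - b k = 1`, `u l - v k = d`, and
`(k,l)` is the same as for `(a,b)`). The value at `(m,0)` for `m ≠ 1` is not used.

`σ, τ ∈ {1,-1}` and `r ∈ ℕ` parametrise the normalisations: `r = 0`, `σ = 1`, `τ = -1` gives
`Q_{1,k} = (-1)^k D_k`. -/
noncomputable def Q (r : ℕ) (σ τ : ℤˣ) : ℕ → ℕ → Module.End KK Sym
  | 0, n => LinearMap.mulLeft KK (qq n)
  | _ + 1, 0 => ((σ : ℤ) : KK) • D r
  | m + 1, n + 1 =>
    let d := Nat.gcd (m + 1) (n + 1)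
    let k := splitK ((m + 1) / d) ((n + 1) / d)
    let l := splitL ((m + 1) / d) ((n + 1) / d)
    (((τ : ℤ) : KK) * MK⁻¹) • (Q r σ τ (m + 1 - k) (n + 1 - l) * Q r σ τ k l
      - Q r σ τ k l * Q r σ τ (m + 1 - k) (n + 1 - l))
  termination_by m n => m + n
  decreasing_by
    all_goals
      have hd : 0 < Nat.gcd (m + 1) (n + 1) := Nat.gcd_pos_of_pos_left _ (by omega)
      have ha : 0 < (m + 1) / Nat.gcd (m + 1) (n + 1) :=
        Nat.div_pos (Nat.le_of_dvd (by omega) (Nat.gcd_dvd_left _ _)) hd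
      have hc := Nat.coprime_div_gcd_div_gcd hd
      have h1 := splitK_lt ha hc
      have h2 := splitL_pos ha hc
      have h3 : (m + 1) / Nat.gcd (m + 1) (n + 1) ≤ m + 1 := Nat.div_le_self _ _
      have h4 : splitL ((m + 1) / Nat.gcd (m + 1) (n + 1)) ((n + 1) / Nat.gcd (m + 1) (n + 1))
          ≤ n + 1 := by
        unfold splitL
        refine le_trans ?_ (Nat.div_le_self _ (Nat.gcd (m + 1) (n + 1)))
        apply Nat.div_le_of_le_mul
        have h5 : 0 < (n + 1) / Nat.gcd (m + 1) (n + 1) :=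
          Nat.div_pos (Nat.le_of_dvd (by omega) (Nat.gcd_dvd_right _ _)) hd
        nlinarith
      omega

/-- For coprime `a, b ≥ 1` and `f_d = ∑_{μ ⊢ d} c_μ q_μ`: the operator
`Θ_{a,b}(f_d) = ∑_μ c_μ ∏_i Q_{a μ_i, b μ_i}` (the factors in the order `μ_1 ≥ μ_2 ≥ ⋯`) -/
noncomputable def Theta (r : ℕ) (σ τ : ℤˣ) (a b : ℕ) {d : ℕ} (c : d.Partition → KK) :
    Module.End KK Sym :=
  ∑ μ : d.Partition, c μ •
    ((μ.parts.sort (· ≥ ·)).map fun i => Q r σ τ (a * i) (b * i)).prod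

/-- `F` is Schur positive: an `ℕ[q,t]`-linear combination of Schur functions -/
def SchurPositive (F : Sym) : Prop :=
  ∃ (s : Finset (Σ n : ℕ, n.Partition)) (c : (Σ n : ℕ, n.Partition) → MvPolynomial (Fin 2) ℕ),
    F = ∑ l ∈ s, C (eval₂ (Nat.castRingHom KK) ![qK, tK] (c l)) * schur (l.2.parts.sort (· ≥ ·))

/-- `f_d = ∑_{μ ⊢ d} c_μ q_μ` is a seed: `f_d^{(a,b)} = Θ_{a,b}(f_d)(1)` is Schur positive for all
coprime `a, b ≥ 1` -/
def IsSeed (r : ℕ) (σ τ : ℤˣ) {d : ℕ} (c : d.Partition → KK) : Prop :=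
  ∀ a b : ℕ, 1 ≤ a → 1 ≤ b → Nat.Coprime a b → SchurPositive (Theta r σ τ a b c 1)

/-- all coefficients of `F` are regular at `t = 1` -/
def RegularT1 (F : Sym) : Prop := ∀ m, RegAt (1 : RatFunc ℚ) (F.coeff m)

/-- `F` with `t` set to `1` in its coefficients -/
noncomputable def atT1 (F : Sym) : MvPolynomial ℕ+ (RatFunc ℚ) :=
  ∑ m ∈ F.support, monomial m (valAt 1 (F.coeff m))

end Pool.Agent.H209R2.EH
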