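import Mathlib

set_option autoImplicit false

/-!
# The semiclassical filtration

`K` is a field, `M ≠ 0` an element, `R` a subring with `M ∈ R`, and `L` the subring of polynomials
with coefficients in `R`. `InF` is the set of `K`-linear endomorphisms `A` such that all iterated
`M⁻¹ [ · , g]` (`g ∈ L`) of `A` preserve `L`. It is closed under sums, products, multiplication by
elements of `R`, and `M⁻¹ [ · , · ]`.
-/

namespace Pool.Agent.H209R2.EH

open MvPolynomial

section
variable {K : Type*} [Field K]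

/-- polynomials with coefficients in the subring `R` -/
noncomputable def LR (R : Subring K) : Subring (MvPolynomial ℕ+ K) :=
  (MvPolynomial.map (σ := ℕ+) R.subtype).range

lemma mem_LR_iff (R : Subring K) (F : MvPolynomial ℕ+ K) : F ∈ LR R ↔ ∀ m, F.coeff m ∈ R := by
  unfold LR
  rw [RingHom.mem_range]
  constructor
  · rintro ⟨G, rfl⟩ m
    rw [coeff_map]
    exact (G.coeff m).2
  · intro h
    refine ⟨∑ m ∈ F.support, monomial m ⟨F.coeff m, h m⟩, ?_⟩
    rw [map_sum]
    simp only [map_monomial, Subring.subtype_apply]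
    exact F.support_sum_monomial_coeff

lemma C_mem_LR {R : Subring K} {c : K} (hc : c ∈ R) : (C c : MvPolynomial ℕ+ K) ∈ LR R :=
  ⟨C ⟨c, hc⟩, by simp⟩

lemma X_mem_LR (R : Subring K) (k : ℕ+) : (X k : MvPolynomial ℕ+ K) ∈ LR R :=
  ⟨X k, by simp⟩

lemma smul_mem_LR {R : Subring K} {c : K} (hc : c ∈ R) {g : MvPolynomial ℕ+ K} (hg : g ∈ LR R) :
    c • g ∈ LR R := by
  rw [MvPolynomial.smul_eq_C_mul]
  exact (LR R).mul_mem (C_mem_LR hc) hg

lemma LR_mono {R R' : Subring K} (h : R ≤ R') : LR R ≤ LR R' := by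
  intro F hF
  rw [mem_LR_iff] at *
  exact fun m => h (hF m)

/-- endomorphisms -/
abbrev Endo (K : Type*) [Field K] : Type _ := Module.End K (MvPolynomial ℕ+ K)

/-- multiplication operator -/
noncomputable def mulop (g : MvPolynomial ℕ+ K) : Endo K := LinearMap.mulLeft K g

@[simp] lemma mulop_apply (g h : MvPolynomial ℕ+ K) : mulop g h = g * h := rfl

lemma mulop_comm (g h : MvPolynomial ℕ+ K) : mulop g * mulop h = mulop h * mulop g := by
  ext x
  simp only [Module.End.mul_apply, mulop_apply, LinearMap.comp_apply]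
  ring_nf

/-- `M⁻¹ [A, B]` -/
noncomputable def br (M : K) (A B : Endo K) : Endo K := M⁻¹ • (A * B - B * A)

lemma br_apply (M : K) (A B : Endo K) (h : MvPolynomial ℕ+ K) :
    br M A B h = M⁻¹ • (A (B h) - B (A h)) := rfl

lemma br_add_left (M : K) (A A' B : Endo K) : br M (A + A') B = br M A B + br M A' B := by
  unfold br
  rw [← smul_add]
  congr 1
  noncomm_ring

lemma br_sub_left (M : K) (A A' B : Endo K) : br M (A - A') B = br M A B - br M A' B := by
  refine LinearMap.ext fun x => ?_
  simp only [br_apply, LinearMap.sub_apply, map_sub, smul_sub]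
  ring

lemma br_sub_right (M : K) (A B B' : Endo K) : br M A (B - B') = br M A B - br M A B' := by
  refine LinearMap.ext fun x => ?_
  simp only [br_apply, LinearMap.sub_apply, map_sub, smul_sub]
  ring

lemma br_zero_left (M : K) (B : Endo K) : br M 0 B = 0 := by
  unfold br
  simp

lemma br_smul_left (M : K) (c : K) (A B : Endo K) : br M (c • A) B = c • br M A B := by
  unfold br
  rw [smul_comm c M⁻¹, smul_sub c]
  simp only [smul_mul_assoc, mul_smul_comm]

lemma br_smul_right (M : K) (c : K) (A B : Endo K) : br M A (c • B) = c • br M A B := by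
  unfold br
  rw [smul_comm c M⁻¹, smul_sub c]
  simp only [smul_mul_assoc, mul_smul_comm]

lemma br_mul_left (M : K) (A B G : Endo K) : br M (A * B) G = A * br M B G + br M A G * B := by
  refine LinearMap.ext fun x => ?_
  simp only [br_apply, LinearMap.add_apply, Module.End.mul_apply, map_sub, smul_sub, map_smul]
  ring

lemma br_br (M : K) (A B G : Endo K) :
    br M (br M A B) G = br M A (br M B G) + br M (br M A G) B := by
  refine LinearMap.ext fun x => ?_
  simp only [br_apply, LinearMap.add_apply, map_sub, smul_sub, map_smul]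
  ring

/-- iterated brackets with multiplication operators -/
noncomputable def ads (M : K) : List (MvPolynomial ℕ+ K) → Endo K → Endo K
  | [], A => A
  | g :: l, A => ads M l (br M A (mulop g))

lemma ads_add (M : K) (l : List (MvPolynomial ℕ+ K)) (A B : Endo K) :
    ads M l (A + B) = ads M l A + ads M l B := by
  induction l generalizing A B with
  | nil => rfl
  | cons g l ih => simp only [ads, br_add_left, ih]

lemma ads_smul (M : K) (l : List (MvPolynomial ℕ+ K)) (c : K) (A : Endo K) :
    ads M l (c • A) = c • ads M l A := by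
  induction l generalizing A with
  | nil => rfl
  | cons g l ih => simp only [ads, br_smul_left, ih]

/-- the filtration ring -/
def InF (M : K) (R : Subring K) (A : Endo K) : Prop :=
  ∀ l : List (MvPolynomial ℕ+ K), (∀ g ∈ l, g ∈ LR R) → ∀ h ∈ LR R, ads M l A h ∈ LR R

variable {M : K} {R : Subring K}

lemma InF.mem {A : Endo K} (hA : InF M R A) {h : MvPolynomial ℕ+ K} (hh : h ∈ LR R) :
    A h ∈ LR R := hA [] (by simp) h hh

lemma InF.br_mulop {A : Endo K} (hA : InF M R A) {g : MvPolynomial ℕ+ K} (hg : g ∈ LR R) :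
    InF M R (br M A (mulop g)) := by
  intro l hl h hh
  exact hA (g :: l) (by
    intro x hx
    rcases List.mem_cons.1 hx with rfl | hx
    · exact hg
    · exact hl x hx) h hh

/-- coinduction principle -/
lemma InF.of_set (S : Endo K → Prop) (h1 : ∀ A, S A → ∀ h ∈ LR R, A h ∈ LR R)
    (h2 : ∀ A, S A → ∀ g ∈ LR R, S (br M A (mulop g))) (A : Endo K) (hA : S A) : InF M R A := by
  intro l
  induction l generalizing A with
  | nil => intro _ h hh; exact h1 A hA h hh
  | cons g l ih =>
    intro hl h hh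
    exact ih (br M A (mulop g)) (h2 A hA g (hl g (List.mem_cons_self))) (fun x hx =>
      hl x (List.mem_cons_of_mem _ hx)) h hh

lemma InF.add {A B : Endo K} (hA : InF M R A) (hB : InF M R B) : InF M R (A + B) := by
  intro l hl h hh
  rw [ads_add]
  exact (LR R).add_mem (hA l hl h hh) (hB l hl h hh)

lemma InF.smul {c : K} (hc : c ∈ R) {A : Endo K} (hA : InF M R A) : InF M R (c • A) := by
  intro l hl h hh
  rw [ads_smul]
  exact smul_mem_LR hc (hA l hl h hh)

lemma InF.neg {A : Endo K} (hA : InF M R A) : InF M R (-A) := by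
  have := InF.smul (R.neg_mem R.one_mem) hA
  have h : (-1 : K) • A = -A := LinearMap.ext fun x => by
    rw [LinearMap.smul_apply, LinearMap.neg_apply, neg_smul, one_smul]
  rwa [h] at this

lemma InF.sub {A B : Endo K} (hA : InF M R A) (hB : InF M R B) : InF M R (A - B) := by
  rw [sub_eq_add_neg]
  exact hA.add hB.neg

lemma InF.zero : InF M R (0 : Endo K) := by
  refine InF.of_set (fun A => A = 0) ?_ ?_ 0 rfl
  · rintro A rfl h hh
    simp
  · rintro A rfl g hg
    exact br_zero_left M _

lemma InF.sum {ι : Type*} (s : Finset ι) (A : ι → Endo K) (hA : ∀ i ∈ s, InF M R (A i)) :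
    InF M R (∑ i ∈ s, A i) := by
  classical
  induction s using Finset.induction_on with
  | empty => simpa using InF.zero
  | insert a s ha ih =>
    rw [Finset.sum_insert ha]
    exact (hA a (Finset.mem_insert_self _ _)).add (ih fun i hi => hA i (Finset.mem_insert_of_mem hi))

lemma InF.mulop {g : MvPolynomial ℕ+ K} (hg : g ∈ LR R) : InF M R (mulop g) := by
  refine InF.of_set (fun A => A = EH.mulop g ∨ A = 0) ?_ ?_ _ (Or.inl rfl)
  · rintro A (rfl | rfl) h hh
    · exact (LR R).mul_mem hg hh
    · simp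
  · rintro A (rfl | rfl) g' hg'
    · right
      unfold br
      rw [mulop_comm, sub_self, smul_zero]
    · right
      exact br_zero_left M _

lemma InF.one : InF M R (1 : Endo K) := by
  have : (1 : Endo K) = EH.mulop 1 := by
    ext x
    simp
  rw [this]
  exact InF.mulop (LR R).one_mem

lemma InF.mul {A B : Endo K} (hA : InF M R A) (hB : InF M R B) : InF M R (A * B) := by
  intro l
  induction l generalizing A B with
  | nil => intro _ h hh; exact hA.mem (hB.mem hh)
  | cons g l ih =>
    intro hl h hh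
    have hg := hl g (List.mem_cons_self)
    have hl' := fun x hx => hl x (List.mem_cons_of_mem _ hx)
    show ads M l (br M (A * B) (EH.mulop g)) h ∈ LR R
    rw [br_mul_left, ads_add]
    exact (LR R).add_mem (ih hA (hB.br_mulop hg) hl' h hh) (ih (hA.br_mulop hg) hB hl' h hh)

/-- `A h = h A(1) + M (ad_h A)(1)` -/
lemma apply_eq (hM : M ≠ 0) (A : Endo K) (h : MvPolynomial ℕ+ K) :
    A h = h * A 1 + M • br M A (mulop h) 1 := by
  rw [br_apply, smul_smul, mul_inv_cancel₀ hM, one_smul]
  simp

lemma InF.br {A B : Endo K} (hM : M ≠ 0) (hA : InF M R A) (hB : InF M R B) :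
    InF M R (br M A B) := by
  intro l
  induction l generalizing A B with
  | nil =>
    intro _ h hh
    show EH.br M A B h ∈ LR R
    rw [br_apply]
    have key : A (B h) - B (A h) = M • (EH.br M A (EH.mulop (h * B 1)) 1
        + A (EH.br M B (EH.mulop h) 1) - EH.br M B (EH.mulop (h * A 1)) 1
        - B (EH.br M A (EH.mulop h) 1)) := by
      have e1 := apply_eq hM B h
      have e2 := apply_eq hM A h
      have e3 := apply_eq hM A (h * B 1)
      have e4 := apply_eq hM B (h * A 1)
      have f1 : A (B h) = A (h * B 1) + M • A (EH.br M B (EH.mulop h) 1) := by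
        conv_lhs => rw [e1]
        rw [map_add, map_smul]
      have f2 : B (A h) = B (h * A 1) + M • B (EH.br M A (EH.mulop h) 1) := by
        conv_lhs => rw [e2]
        rw [map_add, map_smul]
      rw [f1, f2, e3, e4]
      simp only [smul_add, smul_sub]
      ring
    rw [key, smul_smul, inv_mul_cancel₀ hM, one_smul]
    have h1 := (LR R).mul_mem hh (hB.mem (LR R).one_mem)
    have h2 := (LR R).mul_mem hh (hA.mem (LR R).one_mem)
    refine (LR R).sub_mem ((LR R).sub_mem ((LR R).add_mem ?_ ?_) ?_) ?_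
    · exact (hA.br_mulop h1).mem (LR R).one_mem
    · exact hA.mem ((hB.br_mulop hh).mem (LR R).one_mem)
    · exact (hB.br_mulop h2).mem (LR R).one_mem
    · exact hB.mem ((hA.br_mulop hh).mem (LR R).one_mem)
  | cons g l ih =>
    intro hl h hh
    have hg := hl g (List.mem_cons_self)
    have hl' := fun x hx => hl x (List.mem_cons_of_mem _ hx)
    show ads M l (EH.br M (EH.br M A B) (EH.mulop g)) h ∈ LR R
    rw [br_br, ads_add]
    exact (LR R).add_mem (ih hA (hB.br_mulop hg) hl' h hh) (ih (hA.br_mulop hg) hB hl' h hh)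

lemma InF.list_prod (l : List (Endo K)) (h : ∀ A ∈ l, InF M R A) : InF M R l.prod := by
  induction l with
  | nil => exact InF.one
  | cons A l ih =>
    rw [List.prod_cons]
    exact (h A (List.mem_cons_self)).mul (ih fun B hB => h B (List.mem_cons_of_mem _ hB))

/-- The class of operators `h ↦ Ψ (T h)`. -/
lemma InF.of_functional (hM : M ≠ 0) {B : Type*} [CommRing B] [Algebra (MvPolynomial ℕ+ K) B]
    [Algebra K B] [IsScalarTower K (MvPolynomial ℕ+ K) B]
    (BL : Subring B) (hBL : ∀ g ∈ LR R, algebraMap _ B g ∈ BL)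
    (T : MvPolynomial ℕ+ K →ₐ[K] B)
    (hT : ∀ g ∈ LR R, ∃ b ∈ BL, T g = algebraMap _ B g + M • b)
    (hMB : ∀ b ∈ BL, M • b ∈ BL)
    (Ψ : B →ₗ[MvPolynomial ℕ+ K] MvPolynomial ℕ+ K) (hΨ : ∀ b ∈ BL, Ψ b ∈ LR R) :
    InF M R ((Ψ.restrictScalars K) ∘ₗ T.toLinearMap) := by
  refine InF.of_set (fun A => ∃ Ψ : B →ₗ[MvPolynomial ℕ+ K] MvPolynomial ℕ+ K,
    (∀ b ∈ BL, Ψ b ∈ LR R) ∧ A = (Ψ.restrictScalars K) ∘ₗ T.toLinearMap) ?_ ?_ _ ⟨Ψ, hΨ, rfl⟩
  · rintro A ⟨Ψ, hΨ, rfl⟩ h hh
    obtain ⟨b, hb, e⟩ := hT h hh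
    apply hΨ
    show T h ∈ BL
    rw [e]
    exact BL.add_mem (hBL h hh) (hMB b hb)
  · rintro A ⟨Ψ, hΨ, rfl⟩ g hg
    obtain ⟨b, hb, e⟩ := hT g hg
    refine ⟨Ψ ∘ₗ (LinearMap.mulLeft (MvPolynomial ℕ+ K) b), fun c hc => hΨ _ (BL.mul_mem hb hc), ?_⟩
    refine LinearMap.ext fun h => ?_
    rw [br_apply]
    show M⁻¹ • (Ψ (T (g * h)) - g * Ψ (T h)) = Ψ (b * T h)
    have e1 : g * Ψ (T h) = Ψ (algebraMap _ B g * T h) := by
      rw [← Algebra.smul_def, map_smul, smul_eq_mul]
    rw [map_mul, e1, ← map_sub, e, add_mul, add_sub_cancel_left]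
    have e2 : Ψ (M • b * T h) = M • Ψ (b * T h) := by
      rw [smul_mul_assoc]
      have : M • (b * T h) = (C M : MvPolynomial ℕ+ K) • (b * T h) := by
        rw [← algebraMap_smul (MvPolynomial ℕ+ K) M (b * T h)]
        rfl
      rw [this, map_smul, smul_eq_mul, MvPolynomial.smul_eq_C_mul]
    rw [e2, smul_smul, inv_mul_cancel₀ hM, one_smul]

end

end Pool.Agent.H209R2.EH
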