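import Mathlib
import Pool.Agent.H209R2.EHDefs
import Pool.Agent.H209R2.EHFilt

set_option autoImplicit false

/-!
# Vertex operators `W_{m,a}` and their brackets
-/

namespace Pool.Agent.H209R2.EH

open MvPolynomial Finset

/-- functional on `Λ[y]` with `y^i ↦ ψ i` -/
noncomputable def fn (ψ : ℕ → Sym) : Polynomial Sym →ₗ[Sym] Sym :=
  Polynomial.lsum fun i => LinearMap.toSpanSingleton Sym Sym (ψ i)

lemma fn_monomial (ψ : ℕ → Sym) (i : ℕ) (c : Sym) : fn ψ (Polynomial.monomial i c) = c * ψ i := by
  unfold fn
  rw [Polynomial.lsum_apply, Polynomial.sum_monomial_index _ _ (by simp)]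
  rfl

/-- functional on `Λ[y][w]` with `y^i w^j ↦ ψ i j` -/
noncomputable def fn2 (ψ : ℕ → ℕ → Sym) : Polynomial (Polynomial Sym) →ₗ[Sym] Sym :=
  Polynomial.lsum fun j => fn fun i => ψ i j

lemma fn2_monomial (ψ : ℕ → ℕ → Sym) (j : ℕ) (c : Polynomial Sym) :
    fn2 ψ (Polynomial.monomial j c) = fn (fun i => ψ i j) c := by
  unfold fn2
  rw [Polynomial.lsum_apply, Polynomial.sum_monomial_index _ _ (by simp)]

lemma fn_ext {Φ Φ' : Polynomial Sym →ₗ[Sym] Sym}
    (h : ∀ i c, Φ (Polynomial.monomial i c) = Φ' (Polynomial.monomial i c)) : Φ = Φ' := by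
  refine LinearMap.ext fun f => ?_
  induction f using Polynomial.induction_on' with
  | add p q hp hq => rw [map_add, map_add, hp, hq]
  | monomial i c => exact h i c

lemma D_eq (k : ℤ) : D k = ((fn fun i => em (k + i)).restrictScalars KK) ∘ₗ
    (shift 1).toLinearMap := by
  refine LinearMap.ext fun g => ?_
  show (shift 1 g).sum (fun i c => c * em (k + i)) = fn _ (shift 1 g)
  unfold fn
  rw [Polynomial.lsum_apply]
  rfl

/-- `[z^r] exp (- m ∑ p_k z^k / k)` -/
noncomputable def al (m : ℕ) (r : ℤ) : Sym :=
  if 0 ≤ r then expo (fun k => - ((m : Sym) * pw k)) r.toNat else 0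

lemma al_one (r : ℤ) : al 1 r = em r := by
  unfold al em
  simp

lemma al_neg (m : ℕ) {r : ℤ} (h : r < 0) : al m r = 0 := by
  unfold al
  rw [if_neg (by omega)]

lemma al_nat (m r : ℕ) : al m r = expo (fun k => - ((m : Sym) * pw k)) r := by
  unfold al
  rw [if_pos (by omega)]
  simp

/-- the operators `m W_{m,a}` -/
noncomputable def W (m : ℕ) (a : ℤ) : Endo KK :=
  ((fn fun i => al m (a + i)).restrictScalars KK) ∘ₗ (shift m).toLinearMap

lemma W_apply (m : ℕ) (a : ℤ) (g : Sym) : W m a g = fn (fun i => al m (a + i)) (shift m g) := rfl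

lemma D_eq_W (k : ℤ) : D k = W 1 k := by
  rw [D_eq]
  unfold W
  simp only [al_one, Nat.cast_one]

lemma Mk_zero : Mk 0 = 0 := by
  unfold Mk
  simp

lemma shift_pw (c : KK) (k : ℕ) :
    shift c (pw k) = Polynomial.C (pw k) + Polynomial.C (C (c * Mk k)) * Polynomial.X ^ k := by
  cases k with
  | zero =>
    unfold pw
    rw [Mk_zero]
    simp
  | succ k =>
    unfold pw shift
    rw [aeval_X, Nat.succPNat_coe, Polynomial.C_mul_X_pow_eq_monomial]

/-- `γ_k = [x^k] exp (- c ∑ M_r x^r / r)` -/
noncomputable def gam (c : KK) (k : ℕ) : KK := expo (fun k => - (c * Mk k)) k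

/-- the translation property of `E(z)^n` -/
lemma shift_al (c : KK) (n : ℕ) (r : ℤ) :
    shift c (al n r) = ∑ k ∈ range (r.toNat + 1),
      Polynomial.monomial k (gam (c * n) k • al n (r - k)) := by
  by_cases hr : r < 0
  · have : r.toNat = 0 := by omega
    rw [this, al_neg n hr, map_zero]
    simp [al_neg n hr]
  · push Not at hr
    obtain ⟨N, rfl⟩ := Int.eq_ofNat_of_zero_le hr
    rw [Int.toNat_natCast, al_nat]
    have e1 := expo_map (shift c).toRingHom (fun k => - ((n : Sym) * pw k)) N
    have e2 : (shift c).toRingHom (expo (fun k => - ((n : Sym) * pw k)) N)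
        = shift c (expo (fun k => - ((n : Sym) * pw k)) N) := rfl
    rw [e2] at e1
    rw [e1]
    have e3 : (fun k => (shift c).toRingHom (- ((n : Sym) * pw k)))
        = fun k => Polynomial.C (- ((n : Sym) * pw k)) +
          Polynomial.C (C (-(c * n * Mk k))) * Polynomial.X ^ k := by
      funext k
      show shift c (- ((n : Sym) * pw k)) = _
      rw [map_neg, map_mul, shift_pw, map_natCast]
      simp only [map_neg, map_mul, map_natCast]
      ring
    rw [e3, expo_add]
    rw [Finset.Nat.sum_antidiagonal_eq_sum_range_succ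
      (fun i j => expo (fun k => Polynomial.C (- ((n : Sym) * pw k))) i *
        expo (fun k => Polynomial.C (C (-(c * n * Mk k))) * Polynomial.X ^ k) j) N,
      ← Finset.sum_range_reflect]
    refine Finset.sum_congr rfl fun k hk => ?_
    rw [mem_range] at hk
    have hk1 : N + 1 - 1 - k = N - k := by omega
    have hk2 : N - (N - k) = k := by omega
    rw [hk1, hk2]
    have e4 : expo (fun k => (Polynomial.C (- ((n : Sym) * pw k)) : Polynomial Sym)) (N - k)
        = Polynomial.C (al n ((N : ℤ) - k)) := by
      have : ((N : ℤ) - k) = ((N - k : ℕ) : ℤ) := by omega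
      rw [this, al_nat]
      exact (expo_map (Polynomial.C : Sym →+* Polynomial Sym) _ _).symm
    have e5 : expo (fun k => (Polynomial.C (C (-(c * n * Mk k))) * Polynomial.X ^ k :
        Polynomial Sym)) k = Polynomial.C (C (gam (c * n) k)) * Polynomial.X ^ k := by
      rw [expo_scale]
      congr 1
      exact (expo_map ((Polynomial.C : Sym →+* Polynomial Sym).comp (C : KK →+* Sym)) _ _).symm
    rw [e4, e5, MvPolynomial.smul_eq_C_mul, ← Polynomial.C_mul_X_pow_eq_monomial, map_mul]
    ring

/-- the double translation -/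
noncomputable def T2 (m n : ℕ) : Sym →ₐ[KK] Polynomial (Polynomial Sym) :=
  (Polynomial.mapAlgHom (shift m)).comp (shift n)

lemma T2_apply (m n : ℕ) (g : Sym) :
    T2 m n g = (shift n g).map (shift (m : KK)).toRingHom := rfl

lemma fn_mul_shift_al (m n : ℕ) (a b : ℤ) (j : ℕ) (f : Polynomial Sym) :
    fn (fun i => al m (a + i)) (f * shift m (al n (b + j))) =
    fn (fun i => ∑ k ∈ range ((b + j).toNat + 1),
      gam (m * n) k • (al m (a + i + k) * al n (b + j - k))) f := by
  induction f using Polynomial.induction_on' with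
  | add p q hp hq => rw [add_mul, map_add, map_add, hp, hq]
  | monomial i c =>
    rw [shift_al, Finset.mul_sum, map_sum, fn_monomial, Finset.mul_sum]
    refine Finset.sum_congr rfl fun k _ => ?_
    rw [Polynomial.monomial_mul_monomial, fn_monomial]
    push_cast
    rw [← add_assoc, mul_assoc, smul_mul_assoc, mul_comm (al n _) (al m _)]

lemma W_mul_W (m n : ℕ) (a b : ℤ) :
    W m a * W n b = ((fn2 fun i j => ∑ k ∈ range ((b + j).toNat + 1),
      gam (m * n) k • (al m (a + i + k) * al n (b + j - k))).restrictScalars KK) ∘ₗ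
        (T2 m n).toLinearMap := by
  refine LinearMap.ext fun g => ?_
  show W m a (W n b g) = fn2 _ (T2 m n g)
  rw [T2_apply, W_apply n b g]
  generalize shift (n : KK) g = f
  induction f using Polynomial.induction_on' with
  | add p q hp hq =>
    rw [map_add, map_add, hp, hq, Polynomial.map_add, map_add]
  | monomial j c =>
    rw [fn_monomial, W_apply, map_mul, fn_mul_shift_al, Polynomial.map_monomial, fn2_monomial]
    rfl

lemma T2_swap (m n : ℕ) (g : Sym) : T2 n m g = Polynomial.Bivariate.swap (T2 m n g) := by
  have h : (T2 n m).toRingHom = (Polynomial.Bivariate.swap (R := Sym)).toRingEquiv.toRingHom.comp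
      (T2 m n).toRingHom := by
    refine MvPolynomial.ringHom_ext (fun c => ?_) (fun k => ?_)
    · show T2 n m (C c) = Polynomial.Bivariate.swap (T2 m n (C c))
      have e : ∀ m n, T2 m n (C c) = Polynomial.C (Polynomial.C (C c)) := fun m n => by
        have := (T2 m n).commutes c
        exact this
      rw [e, e, Polynomial.Bivariate.swap_C_C]
    · show T2 n m (X k) = Polynomial.Bivariate.swap (T2 m n (X k))
      have e : ∀ m n : ℕ, T2 m n (X k) = Polynomial.C (Polynomial.C (X k)) +
          Polynomial.C (Polynomial.monomial (k : ℕ) (C (m * Mk k))) +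
          Polynomial.monomial (k : ℕ) (Polynomial.C (C (n * Mk k))) := fun m n => by
        rw [T2_apply]
        have e1 : shift (n : KK) (X k) = Polynomial.C (X k) +
          Polynomial.monomial (k : ℕ) (C (n * Mk k)) := by
          unfold shift
          rw [aeval_X]
        have e2 : (shift (m : KK)).toRingHom (X k) = Polynomial.C (X k) +
          Polynomial.monomial (k : ℕ) (C (m * Mk k)) := by
          show shift (m : KK) (X k) = _
          unfold shift
          rw [aeval_X]
        have e3 : (shift (m : KK)).toRingHom (C (n * Mk k)) = Polynomial.C (C (n * Mk k)) := by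
          have := (shift (m : KK)).commutes ((n : KK) * Mk k)
          exact this
        rw [e1, Polynomial.map_add, Polynomial.map_C, Polynomial.map_monomial, e2, e3, map_add]
      rw [e, e, map_add, map_add, Polynomial.Bivariate.swap_C_C]
      have s1 : Polynomial.Bivariate.swap (Polynomial.C (Polynomial.monomial (k : ℕ)
          (C (m * Mk k) : Sym))) = Polynomial.monomial (k : ℕ) (Polynomial.C (C (m * Mk k))) := by
        have := Polynomial.Bivariate.swap_monomial_monomial 0 (k : ℕ) (C (m * Mk k) : Sym)
        rw [Polynomial.monomial_zero_left, Polynomial.monomial_zero_left] at this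
        exact this
      have s2 : Polynomial.Bivariate.swap (Polynomial.monomial (k : ℕ) (Polynomial.C
          (C (n * Mk k) : Sym))) = Polynomial.C (Polynomial.monomial (k : ℕ) (C (n * Mk k))) := by
        have := Polynomial.Bivariate.swap_monomial_monomial (k : ℕ) 0 (C (n * Mk k) : Sym)
        rw [Polynomial.monomial_zero_left, Polynomial.monomial_zero_left] at this
        exact this
      rw [s1, s2]
      ring
  exact congrArg (fun f => f g) h

lemma fn2_swap (ψ : ℕ → ℕ → Sym) (f : Polynomial (Polynomial Sym)) :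
    fn2 ψ (Polynomial.Bivariate.swap f) = fn2 (fun i j => ψ j i) f := by
  induction f using Polynomial.induction_on' with
  | add p q hp hq => rw [map_add, map_add, hp, hq, map_add]
  | monomial j c =>
    induction c using Polynomial.induction_on' with
    | add p q hp hq => rw [map_add, map_add, map_add, hp, hq, map_add]
    | monomial i c =>
      rw [Polynomial.Bivariate.swap_monomial_monomial, fn2_monomial, fn2_monomial, fn_monomial,
        fn_monomial]

/-- the functional of the commutator -/
noncomputable def psiC (m n : ℕ) (a b : ℤ) (i j : ℕ) : Sym :=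
  (∑ k ∈ range ((b + j).toNat + 1), gam (m * n) k • (al m (a + i + k) * al n (b + j - k)))
  - ∑ k ∈ range ((a + i).toNat + 1), gam (m * n) k • (al m (a + i - k) * al n (b + j + k))

lemma fn_sub (ψ ψ' : ℕ → Sym) (f : Polynomial Sym) :
    fn (fun i => ψ i - ψ' i) f = fn ψ f - fn ψ' f := by
  induction f using Polynomial.induction_on' with
  | add p q hp hq => rw [map_add, map_add, map_add, hp, hq]; ring
  | monomial i c => rw [fn_monomial, fn_monomial, fn_monomial]; ring

lemma fn2_sub (ψ ψ' : ℕ → ℕ → Sym) (f : Polynomial (Polynomial Sym)) :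
    fn2 (fun i j => ψ i j - ψ' i j) f = fn2 ψ f - fn2 ψ' f := by
  induction f using Polynomial.induction_on' with
  | add p q hp hq => rw [map_add, map_add, map_add, hp, hq]; ring
  | monomial i c => rw [fn2_monomial, fn2_monomial, fn2_monomial, fn_sub]

lemma fn_add (ψ ψ' : ℕ → Sym) (f : Polynomial Sym) :
    fn (fun i => ψ i + ψ' i) f = fn ψ f + fn ψ' f := by
  induction f using Polynomial.induction_on' with
  | add p q hp hq => rw [map_add, map_add, map_add, hp, hq]; ring
  | monomial i c => rw [fn_monomial, fn_monomial, fn_monomial]; ring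

lemma fn2_add (ψ ψ' : ℕ → ℕ → Sym) (f : Polynomial (Polynomial Sym)) :
    fn2 (fun i j => ψ i j + ψ' i j) f = fn2 ψ f + fn2 ψ' f := by
  induction f using Polynomial.induction_on' with
  | add p q hp hq => rw [map_add, map_add, map_add, hp, hq]; ring
  | monomial i c => rw [fn2_monomial, fn2_monomial, fn2_monomial, fn_add]

lemma fn_smul (c : KK) (ψ : ℕ → Sym) (f : Polynomial Sym) :
    fn (fun i => c • ψ i) f = c • fn ψ f := by
  induction f using Polynomial.induction_on' with
  | add p q hp hq => rw [map_add, map_add, hp, hq, smul_add]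
  | monomial i d => rw [fn_monomial, fn_monomial, mul_smul_comm]

lemma fn2_smul (c : KK) (ψ : ℕ → ℕ → Sym) (f : Polynomial (Polynomial Sym)) :
    fn2 (fun i j => c • ψ i j) f = c • fn2 ψ f := by
  induction f using Polynomial.induction_on' with
  | add p q hp hq => rw [map_add, map_add, hp, hq, smul_add]
  | monomial i d => rw [fn2_monomial, fn2_monomial, fn_smul]

lemma comm_W (m n : ℕ) (a b : ℤ) (g : Sym) :
    W m a (W n b g) - W n b (W m a g) = fn2 (psiC m n a b) (T2 m n g) := by
  have h1 : W m a (W n b g) = fn2 _ (T2 m n g) := congrArg (fun A => A g) (W_mul_W m n a b)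
  have h2 : W n b (W m a g) = fn2 _ (T2 n m g) := congrArg (fun A => A g) (W_mul_W n m b a)
  rw [h1, h2, T2_swap m n, fn2_swap, ← fn2_sub]
  congr 2
  funext i j
  unfold psiC
  congr 1
  refine Finset.sum_congr rfl fun k _ => ?_
  rw [mul_comm (n : KK), mul_comm (al n _)]

end Pool.Agent.H209R2.EH
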