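import Mathlib
import Pool.Agent.H209R2.EHVertex

set_option autoImplicit false

/-!
# The brackets of the vertex operators at `q = t = 1`
-/

namespace Pool.Agent.H209R2.EH

open MvPolynomial Finset

/-! ### identities for `al` -/

lemma al_add (m n N : ℕ) :
    al (m + n) N = ∑ rs ∈ antidiagonal N, al m rs.1 * al n rs.2 := by
  rw [al_nat]
  have e : (fun k => - (((m + n : ℕ) : Sym) * pw k))
      = fun k => - ((m : Sym) * pw k) + - ((n : Sym) * pw k) := by
    funext k
    push_cast
    ring
  rw [e, expo_add]
  simp only [al_nat]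

/-- the power series `E(z)^m` -/
noncomputable def alS (m : ℕ) : PowerSeries Sym := PowerSeries.mk fun r => al m r

lemma deriv_alS (m : ℕ) : PowerSeries.derivative Sym (alS m)
    = (m : PowerSeries Sym) * (PowerSeries.mk (fun k => - pw (k + 1)) * alS m) := by
  refine PowerSeries.ext fun N => ?_
  unfold alS
  rw [PowerSeries.coeff_derivative, PowerSeries.coeff_mk]
  have e : (m : PowerSeries Sym) * (PowerSeries.mk (fun k => - pw (k + 1)) *
      PowerSeries.mk fun r : ℕ => al m r) =
      PowerSeries.mk (fun k => - ((m : Sym) * pw (k + 1))) * PowerSeries.mk fun r : ℕ => al m r := by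
    rw [← mul_assoc]
    congr 1
    have : (m : PowerSeries Sym) = PowerSeries.C (m : Sym) := by
      simp
    rw [this]
    refine PowerSeries.ext fun k => ?_
    rw [PowerSeries.coeff_C_mul, PowerSeries.coeff_mk, PowerSeries.coeff_mk]
    ring
  rw [e, PowerSeries.coeff_mul]
  simp only [PowerSeries.coeff_mk]
  simp only [al_nat]
  have e2 := expo_succ' (fun k => - ((m : Sym) * pw k)) N
  rw [mul_comm, e2]

lemma coeff_X_deriv (F : PowerSeries Sym) (r : ℕ) :
    PowerSeries.coeff r (PowerSeries.X * PowerSeries.derivative Sym F)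
      = (r : Sym) * PowerSeries.coeff r F := by
  cases r with
  | zero => simp
  | succ r =>
    rw [PowerSeries.coeff_succ_X_mul, PowerSeries.coeff_derivative]
    push_cast
    ring

lemma euler_swap (m n N : ℕ) :
    (n : Sym) * ∑ rs ∈ antidiagonal N, (rs.1 : Sym) * (al m rs.1 * al n rs.2)
    = (m : Sym) * ∑ rs ∈ antidiagonal N, (rs.2 : Sym) * (al m rs.1 * al n rs.2) := by
  have h : (n : PowerSeries Sym) * ((PowerSeries.X * PowerSeries.derivative Sym (alS m)) * alS n)
      = (m : PowerSeries Sym) * (alS m * (PowerSeries.X * PowerSeries.derivative Sym (alS n))) := by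
    rw [deriv_alS, deriv_alS]
    ring
  have h2 := congrArg (PowerSeries.coeff N) h
  have c1 : ∀ (k : ℕ) (F : PowerSeries Sym), PowerSeries.coeff N ((k : PowerSeries Sym) * F)
      = (k : Sym) * PowerSeries.coeff N F := by
    intro k F
    have : (k : PowerSeries Sym) = PowerSeries.C (k : Sym) := by simp
    rw [this, PowerSeries.coeff_C_mul]
  rw [c1, c1, PowerSeries.coeff_mul, PowerSeries.coeff_mul] at h2
  simp only [coeff_X_deriv] at h2
  unfold alS at h2
  simp only [PowerSeries.coeff_mk] at h2
  convert h2 using 2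
  · refine Finset.sum_congr rfl fun rs _ => ?_
    ring
  · refine Finset.sum_congr rfl fun rs _ => ?_
    ring

lemma sum_r (m n N : ℕ) :
    ((m : Sym) + n) * ∑ rs ∈ antidiagonal N, (rs.1 : Sym) * (al m rs.1 * al n rs.2)
    = (m : Sym) * N * al (m + n) N := by
  have h := euler_swap m n N
  have h2 : ∑ rs ∈ antidiagonal N, (rs.1 : Sym) * (al m rs.1 * al n rs.2)
      + ∑ rs ∈ antidiagonal N, (rs.2 : Sym) * (al m rs.1 * al n rs.2) = N * al (m + n) N := by
    rw [al_add, ← Finset.sum_add_distrib, Finset.mul_sum]
    refine Finset.sum_congr rfl fun rs hrs => ?_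
    rw [Finset.HasAntidiagonal.mem_antidiagonal] at hrs
    rw [← hrs]
    push_cast
    ring
  rw [add_mul, h, mul_assoc, ← h2]
  ring

/-! ### the two-sided sum -/

lemma sum_up (G : ℤ → Sym) (A : ℤ) (b : ℕ) :
    ∑ k ∈ range (b + 1), G (A + k) = ∑ r ∈ Finset.Icc A (A + b), G r := by
  induction b with
  | zero => simp
  | succ b ih =>
    rw [Finset.sum_range_succ, ih]
    have : Finset.Icc A (A + ((b + 1 : ℕ) : ℤ)) = insert (A + ((b + 1 : ℕ) : ℤ))
        (Finset.Icc A (A + b)) := by
      ext x
      simp only [Finset.mem_Icc, Finset.mem_insert]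
      push_cast
      omega
    rw [this, Finset.sum_insert, add_comm]
    simp only [Finset.mem_Icc]
    push_cast
    omega

lemma sum_down (G : ℤ → Sym) (A : ℤ) (b : ℕ) :
    ∑ k ∈ range (b + 1), G (A - k) = ∑ r ∈ Finset.Icc (A - b) A, G r := by
  induction b with
  | zero => simp
  | succ b ih =>
    rw [Finset.sum_range_succ, ih]
    have : Finset.Icc (A - ((b + 1 : ℕ) : ℤ)) A = insert (A - ((b + 1 : ℕ) : ℤ))
        (Finset.Icc (A - b) A) := by
      ext x
      simp only [Finset.mem_Icc, Finset.mem_insert]
      push_cast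
      omega
    rw [this, Finset.sum_insert, add_comm]
    simp only [Finset.mem_Icc]
    push_cast
    omega

lemma two_sided (G : ℤ → Sym) (A B : ℤ) (hA : G A = 0) (h0 : ∀ r < 0, G r = 0)
    (h1 : ∀ r, A + B < r → G r = 0) :
    ∑ k ∈ range (B.toNat + 1), G (A + k) + ∑ k ∈ range (A.toNat + 1), G (A - k)
      = ∑ r ∈ Finset.Icc 0 (A + B), G r := by
  rw [sum_up, sum_down]
  have e1 : ∑ r ∈ Finset.Icc A (A + B.toNat), G r = ∑ r ∈ Finset.Ioc A (A + B.toNat), G r := by
    symm
    refine Finset.sum_subset ?_ ?_
    · intro x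
      simp only [Finset.mem_Icc, Finset.mem_Ioc]
      omega
    · intro x hx hx'
      simp only [Finset.mem_Icc, Finset.mem_Ioc] at hx hx'
      have : x = A := by omega
      rw [this, hA]
  have hd : Disjoint (Finset.Ioc A (A + B.toNat)) (Finset.Icc (A - A.toNat) A) := by
    rw [Finset.disjoint_left]
    intro x
    simp only [Finset.mem_Icc, Finset.mem_Ioc]
    omega
  rw [e1, ← Finset.sum_union hd]
  have e2 : Finset.Ioc A (A + B.toNat) ∪ Finset.Icc (A - A.toNat) A
      = Finset.Icc (A - A.toNat) (A + B.toNat) := by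
    ext x
    simp only [Finset.mem_Icc, Finset.mem_Ioc, Finset.mem_union]
    omega
  rw [e2]
  symm
  refine Finset.sum_subset ?_ ?_
  · intro x
    simp only [Finset.mem_Icc]
    omega
  · intro x hx hx'
    simp only [Finset.mem_Icc] at hx hx'
    by_cases h : x < 0
    · exact h0 x h
    · exact h1 x (by omega)

/-- the classical part of the commutator functional -/
lemma classical_sum (m n : ℕ) (A B : ℤ) :
    ((m : Sym) + n) * (∑ k ∈ range (B.toNat + 1), (k : Sym) * (al m (A + k) * al n (B - k))
      - ∑ k ∈ range (A.toNat + 1), (k : Sym) * (al m (A - k) * al n (B + k)))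
    = ((m : Sym) * B - n * A) * al (m + n) (A + B) := by
  set G : ℤ → Sym := fun r => ((r : Sym) - A) * (al m r * al n (A + B - r)) with hG
  have e1 : ∑ k ∈ range (B.toNat + 1), (k : Sym) * (al m (A + k) * al n (B - k))
      = ∑ k ∈ range (B.toNat + 1), G (A + k) := by
    refine Finset.sum_congr rfl fun k _ => ?_
    rw [hG]
    have : A + B - (A + k) = B - k := by ring
    simp only [this]
    push_cast
    ring
  have e2 : ∑ k ∈ range (A.toNat + 1), (k : Sym) * (al m (A - k) * al n (B + k))
      = - ∑ k ∈ range (A.toNat + 1), G (A - k) := by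
    rw [← Finset.sum_neg_distrib]
    refine Finset.sum_congr rfl fun k _ => ?_
    rw [hG]
    have : A + B - (A - k) = B + k := by ring
    simp only [this]
    push_cast
    ring
  rw [e1, e2, sub_neg_eq_add, two_sided G A B]
  · by_cases hAB : A + B < 0
    · rw [Finset.Icc_eq_empty (by omega), al_neg _ hAB]
      simp
    · push Not at hAB
      obtain ⟨N, hN⟩ := Int.eq_ofNat_of_zero_le hAB
      have e3 : ∑ r ∈ Finset.Icc 0 (A + B), G r = ∑ rs ∈ antidiagonal N,
          ((rs.1 : Sym) - A) * (al m rs.1 * al n rs.2) := by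
        rw [Finset.Nat.sum_antidiagonal_eq_sum_range_succ
          (fun i j => ((i : Sym) - A) * (al m i * al n j)) N]
        have := sum_up G 0 N
        rw [zero_add] at this
        rw [hN, ← this]
        refine Finset.sum_congr rfl fun k hk => ?_
        rw [mem_range] at hk
        rw [hG]
        simp only [zero_add, hN]
        have : ((N : ℤ) - k) = ((N - k : ℕ) : ℤ) := by omega
        rw [this]
        push_cast
        ring
      rw [e3, hN]
      have e4 : ∑ rs ∈ antidiagonal N, ((rs.1 : Sym) - A) * (al m rs.1 * al n rs.2)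
          = ∑ rs ∈ antidiagonal N, (rs.1 : Sym) * (al m rs.1 * al n rs.2)
            - A * al (m + n) N := by
        rw [al_add, Finset.mul_sum, ← Finset.sum_sub_distrib]
        refine Finset.sum_congr rfl fun rs _ => ?_
        ring
      rw [e4, mul_sub, sum_r]
      have hN' : (N : Sym) = (A : Sym) + B := by
        have := congrArg (fun z : ℤ => (z : Sym)) hN
        push_cast at this
        exact this.symm
      rw [hN']
      ring
  · rw [hG]; simp
  · intro r hr
    rw [hG]
    simp only [al_neg m hr]
    ring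
  · intro r hr
    rw [hG]
    simp only [al_neg n (show A + B - r < 0 by omega)]
    ring

end Pool.Agent.H209R2.EH
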