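import Mathlib
import Pool.Agent.H209R2.EHClass

set_option autoImplicit false

/-!
# The vertex operators lie in the filtration ring; brackets modulo `(q - 1)`
-/

namespace Pool.Agent.H209R2.EH

open MvPolynomial Finset

/-! ### exact identities for the double translation -/

lemma shift_X (c : KK) (k : ℕ+) : shift c (X k) = Polynomial.C (X k) +
    Polynomial.monomial (k : ℕ) (C (c * Mk k)) := by
  unfold shift
  rw [aeval_X]

lemma shift_C (c d : KK) : shift c (C d) = Polynomial.C (C d) := by
  have := (shift c).commutes d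
  exact this

lemma T2_X (m n : ℕ) (k : ℕ+) : T2 m n (X k) = Polynomial.C (Polynomial.C (X k)) +
    Polynomial.C (Polynomial.monomial (k : ℕ) (C (m * Mk k))) +
    Polynomial.monomial (k : ℕ) (Polynomial.C (C (n * Mk k))) := by
  rw [T2_apply, shift_X, Polynomial.map_add, Polynomial.map_C, Polynomial.map_monomial]
  have e2 : (shift (m : KK)).toRingHom (X k) = Polynomial.C (X k) +
      Polynomial.monomial (k : ℕ) (C (m * Mk k)) := shift_X _ _
  have e3 : (shift (m : KK)).toRingHom (C (n * Mk k)) = Polynomial.C (C (n * Mk k)) :=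
    shift_C _ _
  rw [e2, e3, map_add]

lemma T2_C (m n : ℕ) (c : KK) : T2 m n (C c) = Polynomial.C (Polynomial.C (C c)) := by
  have := (T2 m n).commutes c
  exact this

/-- restriction to the diagonal `w = y` -/
noncomputable def diag : Polynomial (Polynomial Sym) →+* Polynomial Sym :=
  Polynomial.evalRingHom Polynomial.X

lemma diag_monomial (j : ℕ) (f : Polynomial Sym) :
    diag (Polynomial.monomial j f) = f * Polynomial.X ^ j := by
  unfold diag
  simp

lemma diag_C (f : Polynomial Sym) : diag (Polynomial.C f) = f := by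
  unfold diag
  simp

lemma diag_T2 (m n : ℕ) (g : Sym) : diag (T2 m n g) = shift (m + n : ℕ) g := by
  have h : diag.comp (T2 m n).toRingHom = (shift ((m + n : ℕ) : KK)).toRingHom := by
    refine MvPolynomial.ringHom_ext (fun c => ?_) (fun k => ?_)
    · show diag (T2 m n (C c)) = shift ((m + n : ℕ) : KK) (C c)
      rw [T2_C, diag_C, shift_C]
    · show diag (T2 m n (X k)) = shift ((m + n : ℕ) : KK) (X k)
      rw [T2_X, map_add, map_add, diag_C, diag_C, diag_monomial, shift_X, Polynomial.C_mul_X_pow_eq_monomial,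
        add_assoc, ← map_add, ← map_add]
      push_cast
      rw [add_mul]
  exact congrArg (fun f => f g) h

lemma fn_diag (ψ : ℕ → Sym) (f : Polynomial (Polynomial Sym)) :
    fn ψ (diag f) = fn2 (fun i j => ψ (i + j)) f := by
  induction f using Polynomial.induction_on' with
  | add p q hp hq => rw [map_add, map_add, map_add, hp, hq]
  | monomial j c =>
    rw [diag_monomial, fn2_monomial]
    induction c using Polynomial.induction_on' with
    | add p q hp hq => rw [add_mul, map_add, map_add, hp, hq]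
    | monomial i c =>
      rw [fn_monomial, Polynomial.monomial_mul_X_pow, fn_monomial]

/-- the operator `m w ∂_w - n y ∂_y` followed by restriction to the diagonal -/
noncomputable def ED (m n : ℕ) : Polynomial (Polynomial Sym) →ₗ[Sym] Polynomial Sym :=
  Polynomial.lsum fun j => Polynomial.lsum fun i =>
    (((m : Sym) * j - (n : Sym) * i) • Polynomial.monomial (i + j) : Sym →ₗ[Sym] Polynomial Sym)

lemma ED_monomial (m n i j : ℕ) (c : Sym) :
    ED m n (Polynomial.monomial j (Polynomial.monomial i c))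
      = Polynomial.monomial (i + j) (((m : Sym) * j - (n : Sym) * i) * c) := by
  unfold ED
  rw [Polynomial.lsum_apply, Polynomial.sum_monomial_index _ _ (by simp), Polynomial.lsum_apply,
    Polynomial.sum_monomial_index _ _ (by simp), LinearMap.smul_apply, Polynomial.smul_monomial,
    smul_eq_mul]

lemma ED_mul (m n : ℕ) (f g : Polynomial (Polynomial Sym)) :
    ED m n (f * g) = diag f * ED m n g + diag g * ED m n f := by
  induction f using Polynomial.induction_on' with
  | add p q hp hq => rw [add_mul, map_add, hp, hq, map_add, map_add]; ring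
  | monomial j c =>
    induction c using Polynomial.induction_on' with
    | add p q hp hq => rw [map_add, add_mul, map_add, hp, hq, map_add, map_add]; ring
    | monomial i c =>
      induction g using Polynomial.induction_on' with
      | add p q hp hq => rw [mul_add, map_add, hp, hq, map_add, map_add]; ring
      | monomial j' c' =>
        induction c' using Polynomial.induction_on' with
        | add p q hp hq => rw [map_add, mul_add, map_add, hp, hq, map_add, map_add]; ring
        | monomial i' c' =>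
          rw [Polynomial.monomial_mul_monomial, Polynomial.monomial_mul_monomial, ED_monomial,
            ED_monomial, ED_monomial, diag_monomial, diag_monomial,
            Polynomial.monomial_mul_X_pow, Polynomial.monomial_mul_X_pow,
            Polynomial.monomial_mul_monomial, Polynomial.monomial_mul_monomial]
          have e : i' + j' + (i + j) = i + j + (i' + j') := by ring
          have e2 : i + i' + (j + j') = i + j + (i' + j') := by ring
          rw [e, e2, ← map_add]
          congr 1
          push_cast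
          ring

lemma ED_T2 (m n : ℕ) (g : Sym) : ED m n (T2 m n g) = 0 := by
  induction g using MvPolynomial.induction_on with
  | C c =>
    rw [T2_C, ← Polynomial.monomial_zero_left, ← Polynomial.monomial_zero_left, ED_monomial]
    simp
  | add p q hp hq => rw [map_add, map_add, hp, hq, add_zero]
  | mul_X p k hp =>
    rw [map_mul, ED_mul, hp, mul_zero, add_zero]
    have : ED m n (T2 m n (X k)) = 0 := by
      rw [T2_X, map_add, map_add, ← Polynomial.monomial_zero_left, ← Polynomial.monomial_zero_left,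
        ← Polynomial.monomial_zero_left, ← Polynomial.monomial_zero_left, ED_monomial, ED_monomial,
        ED_monomial]
      simp only [Nat.cast_zero, mul_zero, sub_zero, zero_mul, map_zero, zero_add, add_zero,
        zero_sub]
      rw [← map_add]
      have : -((n : Sym) * (((k : ℕ) : ℕ) : Sym)) * C ((m : KK) * Mk k) +
          (m : Sym) * (((k : ℕ) : ℕ) : Sym) * C ((n : KK) * Mk k) = 0 := by
        simp only [map_mul, map_natCast]
        ring
      rw [this, map_zero]
    rw [this, mul_zero]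

lemma fn_ED (m n : ℕ) (ψ : ℕ → Sym) (f : Polynomial (Polynomial Sym)) :
    fn ψ (ED m n f) = fn2 (fun i j => ((m : Sym) * j - (n : Sym) * i) * ψ (i + j)) f := by
  induction f using Polynomial.induction_on' with
  | add p q hp hq => rw [map_add, map_add, map_add, hp, hq]
  | monomial j c =>
    rw [fn2_monomial]
    induction c using Polynomial.induction_on' with
    | add p q hp hq => rw [map_add, map_add, map_add, map_add, hp, hq]
    | monomial i c =>
      rw [fn_monomial, ED_monomial, fn_monomial]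
      ring

/-- the classical bracket -/
lemma classical_T2 (m n : ℕ) (a b : ℤ) (g : Sym) :
    fn2 (fun i j => ((m : Sym) * ((b + j : ℤ) : Sym) - n * ((a + i : ℤ) : Sym)) *
      al (m + n) (a + i + (b + j))) (T2 m n g)
    = ((m : ℤ) * b - n * a : ℤ) * W (m + n) (a + b) g := by
  have e : (fun i j : ℕ => ((m : Sym) * ((b + j : ℤ) : Sym) - n * ((a + i : ℤ) : Sym)) *
      al (m + n) (a + i + (b + j)))
      = fun i j : ℕ => (C (((m : ℤ) * b - n * a : ℤ) : KK) : Sym) *
          al (m + n) (a + b + ((i + j : ℕ) : ℤ))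
        + ((m : Sym) * j - (n : Sym) * i) * al (m + n) (a + b + ((i + j : ℕ) : ℤ)) := by
    funext i j
    have : a + i + (b + j) = a + b + ((i + j : ℕ) : ℤ) := by
      push_cast
      ring
    rw [this, ← add_mul]
    congr 1
    rw [map_intCast]
    push_cast
    ring
  rw [e, fn2_add]
  have h1 := fn_ED m n (fun k : ℕ => al (m + n) (a + b + (k : ℤ))) (T2 m n g)
  rw [ED_T2, map_zero] at h1
  rw [← h1, add_zero]
  have h2 := fn_diag (fun k : ℕ => C (((m : ℤ) * b - n * a : ℤ) : KK) * al (m + n) (a + b + (k : ℤ)))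
    (T2 m n g)
  rw [← h2, diag_T2]
  have h3 := fn_smul (((m : ℤ) * b - n * a : ℤ) : KK) (fun i : ℕ => al (m + n) (a + b + (i : ℤ)))
    (shift ((m + n : ℕ) : KK) g)
  simp only [MvPolynomial.smul_eq_C_mul] at h3
  rw [h3, W_apply, map_intCast]

/-! ### membership in the filtration ring -/

/-- `M_k / M` -/
noncomputable def nk (k : ℕ) : KK := (∑ i ∈ range k, qK ^ i) * ∑ i ∈ range k, tK ^ i

lemma Mk_eq (k : ℕ) : Mk k = MK * nk k := by
  unfold Mk MK nk
  have h1 := mul_neg_geom_sum qK k
  have h2 := mul_neg_geom_sum tK k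
  rw [← h1, ← h2]
  ring

/-- the hypotheses on the coefficient ring -/
structure Good (R : Subring KK) : Prop where
  rat : ∀ c : ℚ, algebraMap ℚ KK c ∈ R
  q : qK ∈ R
  t : tK ∈ R
  qtinv : (qK * tK)⁻¹ ∈ R

lemma Good.M {R : Subring KK} (h : Good R) : MK ∈ R :=
  R.mul_mem (R.sub_mem R.one_mem h.q) (R.sub_mem R.one_mem h.t)

lemma Good.nk {R : Subring KK} (h : Good R) (k : ℕ) : nk k ∈ R :=
  R.mul_mem (R.sum_mem fun i _ => R.pow_mem h.q i) (R.sum_mem fun i _ => R.pow_mem h.t i)

lemma Good.rat' {R : Subring KK} (h : Good R) [Algebra ℚ Sym] (c : ℚ) :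
    algebraMap ℚ Sym c ∈ LR R := by
  have : algebraMap ℚ Sym c = C (algebraMap ℚ KK c) :=
    RingHom.congr_fun (Subsingleton.elim (algebraMap ℚ Sym) (C.comp (algebraMap ℚ KK))) c
  rw [this]
  exact C_mem_LR (h.rat c)

lemma Good.natCast {R : Subring KK} (_ : Good R) (n : ℕ) : (n : KK) ∈ R := natCast_mem R n

lemma Good.al {R : Subring KK} (h : Good R) (m : ℕ) (r : ℤ) : al m r ∈ LR R := by
  unfold EH.al
  split_ifs
  · refine expo_mem (LR R) h.rat' _ (fun k => ?_) _
    refine (LR R).neg_mem ((LR R).mul_mem (natCast_mem _ _) ?_)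
    cases k with
    | zero => exact (LR R).zero_mem
    | succ k => exact X_mem_LR R _
  · exact (LR R).zero_mem

lemma MK_ne : MK ≠ 0 := by
  unfold MK qK tK
  refine mul_ne_zero (sub_ne_zero.2 ?_) (sub_ne_zero.2 ?_)
  · intro h
    have h1 : (RatFunc.C (1 : RatFunc ℚ) : KK) = RatFunc.C (RatFunc.X : RatFunc ℚ) := by
      rw [map_one]; exact h
    have h2 := (RatFunc.C : RatFunc ℚ →+* KK).injective h1
    have h3 : (RatFunc.X : RatFunc ℚ).num = (1 : RatFunc ℚ).num := by rw [← h2]
    rw [RatFunc.num_X, RatFunc.num_one] at h3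
    exact Polynomial.X_ne_C 1 h3
  · intro h
    have h3 : (RatFunc.X : KK).num = (1 : KK).num := by rw [← h]
    rw [RatFunc.num_X, RatFunc.num_one] at h3
    exact Polynomial.X_ne_C 1 h3

lemma hT_general {R : Subring KK} {B : Type*} [CommRing B] [Algebra Sym B]
    [Algebra KK B] [IsScalarTower KK Sym B] (BL : Subring B)
    (hBL : ∀ g ∈ LR R, algebraMap Sym B g ∈ BL) (hMB : ∀ b ∈ BL, MK • b ∈ BL)
    (T : Sym →ₐ[KK] B) (hX : ∀ k, ∃ b ∈ BL, T (X k) = algebraMap Sym B (X k) + MK • b)
    (g : Sym) (hg : g ∈ LR R) : ∃ b ∈ BL, T g = algebraMap Sym B g + MK • b := by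
  obtain ⟨g', rfl⟩ := hg
  induction g' using MvPolynomial.induction_on with
  | C c =>
    refine ⟨0, BL.zero_mem, ?_⟩
    have h1 : (MvPolynomial.map R.subtype) (C c) = (C (c : KK) : Sym) := by simp
    rw [h1]
    have h2 : T (C (c : KK)) = algebraMap KK B c := T.commutes _
    have h3 : algebraMap Sym B (C (c : KK)) = algebraMap KK B c :=
      (IsScalarTower.algebraMap_apply KK Sym B c).symm
    rw [h2, h3, smul_zero, add_zero]
  | add p q hp hq =>
    obtain ⟨b, hb, e⟩ := hp
    obtain ⟨b', hb', e'⟩ := hq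
    refine ⟨b + b', BL.add_mem hb hb', ?_⟩
    rw [map_add, map_add, e, e', map_add, smul_add]
    ring
  | mul_X p k hp =>
    obtain ⟨b, hb, e⟩ := hp
    obtain ⟨b', hb', e'⟩ := hX k
    have hp' : MvPolynomial.map R.subtype p ∈ LR R := ⟨p, rfl⟩
    refine ⟨b * algebraMap Sym B (X k) + algebraMap Sym B (MvPolynomial.map R.subtype p) * b' +
      b * (MK • b'), BL.add_mem (BL.add_mem (BL.mul_mem hb (hBL _ (X_mem_LR R k)))
        (BL.mul_mem (hBL _ hp') hb')) (BL.mul_mem hb (hMB _ hb')), ?_⟩
    rw [map_mul, map_mul, e, MvPolynomial.map_X, e', map_mul]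
    simp only [Algebra.smul_def]
    ring

/-- `L[y]` -/
noncomputable def BL1 (R : Subring KK) : Subring (Polynomial Sym) :=
  (Polynomial.mapRingHom (LR R).subtype).range

/-- `L[y][w]` -/
noncomputable def BL2 (R : Subring KK) : Subring (Polynomial (Polynomial Sym)) :=
  @RingHom.range (Polynomial (Polynomial ↥(LR R))) (Polynomial (Polynomial Sym)) _ _
    (Polynomial.mapRingHom (Polynomial.mapRingHom (LR R).subtype))

lemma C_mem_BL1 {R : Subring KK} {g : Sym} (hg : g ∈ LR R) : Polynomial.C g ∈ BL1 R :=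
  ⟨Polynomial.C ⟨g, hg⟩, by simp⟩

lemma monomial_mem_BL1 {R : Subring KK} {g : Sym} (hg : g ∈ LR R) (k : ℕ) :
    Polynomial.monomial k g ∈ BL1 R :=
  ⟨Polynomial.monomial k ⟨g, hg⟩, by simp⟩

lemma C_mem_BL2 {R : Subring KK} {g : Polynomial Sym} (hg : g ∈ BL1 R) :
    Polynomial.C g ∈ BL2 R := by
  obtain ⟨g', rfl⟩ := hg
  exact ⟨Polynomial.C g', by simp⟩

lemma monomial_mem_BL2 {R : Subring KK} {g : Polynomial Sym} (hg : g ∈ BL1 R) (k : ℕ) :
    Polynomial.monomial k g ∈ BL2 R := by
  obtain ⟨g', rfl⟩ := hg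
  exact ⟨Polynomial.monomial k g', by simp⟩

lemma M_BL1 {R : Subring KK} (h : Good R) (b : Polynomial Sym) (hb : b ∈ BL1 R) :
    MK • b ∈ BL1 R := by
  have : MK • b = Polynomial.C (C MK) * b := by
    rw [Algebra.smul_def]
    rfl
  rw [this]
  exact (BL1 R).mul_mem (C_mem_BL1 (C_mem_LR h.M)) hb

lemma M_BL2 {R : Subring KK} (h : Good R) (b : Polynomial (Polynomial Sym)) (hb : b ∈ BL2 R) :
    MK • b ∈ BL2 R := by
  have : MK • b = Polynomial.C (Polynomial.C (C MK)) * b := by
    rw [Algebra.smul_def]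
    rfl
  rw [this]
  exact (BL2 R).mul_mem (C_mem_BL2 (C_mem_BL1 (C_mem_LR h.M))) hb

lemma fn_mem {R : Subring KK} (ψ : ℕ → Sym) (hψ : ∀ i, ψ i ∈ LR R) (b : Polynomial Sym)
    (hb : b ∈ BL1 R) : fn ψ b ∈ LR R := by
  obtain ⟨b', rfl⟩ := hb
  induction b' using Polynomial.induction_on' with
  | add p q hp hq => rw [map_add, map_add]; exact (LR R).add_mem hp hq
  | monomial i c =>
    have : Polynomial.mapRingHom (LR R).subtype (Polynomial.monomial i c)
        = Polynomial.monomial i (c : Sym) := by simp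
    rw [this, fn_monomial]
    exact (LR R).mul_mem c.2 (hψ i)

lemma fn2_mem {R : Subring KK} (ψ : ℕ → ℕ → Sym) (hψ : ∀ i j, ψ i j ∈ LR R)
    (b : Polynomial (Polynomial Sym)) (hb : b ∈ BL2 R) : fn2 ψ b ∈ LR R := by
  obtain ⟨b', rfl⟩ := hb
  induction b' using Polynomial.induction_on' with
  | add p q hp hq => rw [map_add, map_add]; exact (LR R).add_mem hp hq
  | monomial j c =>
    have : Polynomial.mapRingHom (Polynomial.mapRingHom (LR R).subtype) (Polynomial.monomial j c)
        = Polynomial.monomial j (Polynomial.mapRingHom (LR R).subtype c) := by simp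
    rw [this, fn2_monomial]
    exact fn_mem _ (fun i => hψ i j) _ ⟨c, rfl⟩

lemma fn_shift_InF {R : Subring KK} (h : Good R) (c : ℕ) (ψ : ℕ → Sym)
    (hψ : ∀ i, ψ i ∈ LR R) :
    InF MK R (((fn ψ).restrictScalars KK) ∘ₗ (shift c).toLinearMap) := by
  refine InF.of_functional MK_ne (BL1 R) (fun g hg => C_mem_BL1 hg) (shift c) ?_ (M_BL1 h) (fn ψ)
    (fn_mem ψ hψ)
  refine hT_general (BL1 R) (fun g hg => C_mem_BL1 hg) (M_BL1 h) (shift c) (fun k => ?_)
  refine ⟨Polynomial.monomial (k : ℕ) (C (c * nk k)), monomial_mem_BL1 (C_mem_LR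
    (R.mul_mem (h.natCast c) (h.nk _))) _, ?_⟩
  rw [shift_X, Mk_eq, Polynomial.smul_monomial, MvPolynomial.smul_eq_C_mul, ← map_mul]
  have : (c : KK) * (MK * nk k) = MK * (c * nk k) := by ring
  rw [this]
  rfl

lemma fn2_T2_InF {R : Subring KK} (h : Good R) (m n : ℕ) (ψ : ℕ → ℕ → Sym)
    (hψ : ∀ i j, ψ i j ∈ LR R) :
    InF MK R (((fn2 ψ).restrictScalars KK) ∘ₗ (T2 m n).toLinearMap) := by
  refine InF.of_functional MK_ne (BL2 R) (fun g hg => C_mem_BL2 (C_mem_BL1 hg)) (T2 m n) ?_
    (M_BL2 h) (fn2 ψ) (fn2_mem ψ hψ)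
  refine hT_general (BL2 R) (fun g hg => C_mem_BL2 (C_mem_BL1 hg)) (M_BL2 h) (T2 m n)
    (fun k => ?_)
  refine ⟨Polynomial.C (Polynomial.monomial (k : ℕ) (C (m * nk k))) +
    Polynomial.monomial (k : ℕ) (Polynomial.C (C (n * nk k))), (BL2 R).add_mem
      (C_mem_BL2 (monomial_mem_BL1 (C_mem_LR (R.mul_mem (h.natCast m) (h.nk _))) _))
      (monomial_mem_BL2 (C_mem_BL1 (C_mem_LR (R.mul_mem (h.natCast n) (h.nk _)))) _), ?_⟩
  rw [T2_X, Mk_eq, smul_add, Polynomial.smul_monomial, Polynomial.smul_C, Polynomial.smul_C,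
    Polynomial.smul_monomial, MvPolynomial.smul_eq_C_mul, MvPolynomial.smul_eq_C_mul,
    ← map_mul, ← map_mul, add_assoc]
  have e1 : (m : KK) * (MK * nk k) = MK * (m * nk k) := by ring
  have e2 : (n : KK) * (MK * nk k) = MK * (n * nk k) := by ring
  rw [e1, e2]
  rfl

lemma W_InF {R : Subring KK} (h : Good R) (m : ℕ) (a : ℤ) : InF MK R (W m a) :=
  fn_shift_InF h m _ fun _ => h.al _ _

end Pool.Agent.H209R2.EH
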