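import Mathlib
import Pool.Agent.H209R2.EHBr

set_option autoImplicit false

/-!
# Brackets modulo `(q - 1)` over the valuation ring `V`
-/

namespace Pool.Agent.H209R2.EH

open MvPolynomial Finset

lemma algebraMap_rat {k : Type} [Field k] [CharZero k] [Algebra ℚ (RatFunc k)] (c : ℚ) :
    algebraMap ℚ (RatFunc k) c = RatFunc.C (algebraMap ℚ k c) :=
  RingHom.congr_fun (Subsingleton.elim (algebraMap ℚ (RatFunc k))
    ((RatFunc.C : k →+* RatFunc k).comp (algebraMap ℚ k))) c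

lemma algebraMap_KK (c : ℚ) : algebraMap ℚ KK c = RatFunc.C (RatFunc.C c) := by
  have h := RingHom.congr_fun (Subsingleton.elim (algebraMap ℚ KK)
    ((RatFunc.C : RatFunc ℚ →+* KK).comp (RatFunc.C : ℚ →+* RatFunc ℚ))) c
  exact h

lemma q_mem_V : qK ∈ V := by
  refine ⟨RegAt.C _ _, ?_⟩
  unfold qK
  rw [valAt_C]
  exact RegAt.X _

lemma t_mem_V : tK ∈ V := by
  refine ⟨RegAt.X _, ?_⟩
  unfold tK
  rw [valAt_X]
  exact (Reg (1 : ℚ)).one_mem

lemma qtinv_mem_V : (qK * tK)⁻¹ ∈ V := by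
  by_contra hcon
  obtain ⟨h, h0⟩ := V_inv hcon
  rw [inv_inv] at h
  have h1 : evV ⟨qK * tK, V.mul_mem q_mem_V t_mem_V⟩ = 0 := by
    have : (⟨qK * tK, V.mul_mem q_mem_V t_mem_V⟩ : V) = ⟨(qK * tK)⁻¹⁻¹, by rwa [inv_inv]⟩ := by
      apply Subtype.ext
      exact (inv_inv _).symm
    rw [this]
    exact h0
  have h2 : evV ⟨qK * tK, V.mul_mem q_mem_V t_mem_V⟩ = 1 := by
    rw [evV_apply]
    show valAt 1 (valAt 1 (qK * tK)) = 1
    unfold qK tK
    rw [valAt_mul (RegAt.C _ _) (RegAt.X _), valAt_C, valAt_X, mul_one, valAt_X]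
  rw [h2] at h1
  exact one_ne_zero h1

lemma goodV : Good V where
  rat c := by
    rw [algebraMap_KK]
    refine ⟨RegAt.C _ _, ?_⟩
    rw [valAt_C]
    exact RegAt.C _ _
  q := q_mem_V
  t := t_mem_V
  qtinv := qtinv_mem_V

lemma goodReg : Good (Reg (1 : RatFunc ℚ)) where
  rat c := V_le_Reg (goodV.rat c)
  q := RegAt.C _ _
  t := RegAt.X _
  qtinv := V_le_Reg qtinv_mem_V

lemma evV_mk {x : KK} (h : x ∈ V) : evV ⟨x, h⟩ = valAt 1 (valAt 1 x) := rfl

lemma evV_q : evV ⟨qK, goodV.q⟩ = 1 := by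
  rw [evV_mk]
  unfold qK
  rw [valAt_C, valAt_X]

lemma evV_t : evV ⟨tK, goodV.t⟩ = 1 := by
  rw [evV_mk]
  unfold tK
  rw [valAt_X, valAt_one]

lemma evV_rat (c : ℚ) : evV ⟨algebraMap ℚ KK c, goodV.rat c⟩ = c := by
  rw [evV_mk, algebraMap_KK, valAt_C, valAt_C]

lemma evV_M : evV ⟨MK, goodV.M⟩ = 0 := by
  have : (⟨MK, goodV.M⟩ : V) = (1 - ⟨qK, goodV.q⟩) * (1 - ⟨tK, goodV.t⟩) := rfl
  rw [this, map_mul, map_sub, evV_q, map_one, sub_self, zero_mul]

lemma evV_nk (k : ℕ) : evV ⟨nk k, goodV.nk k⟩ = (k : ℚ) ^ 2 := by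
  have : (⟨nk k, goodV.nk k⟩ : V) = (∑ i ∈ range k, ⟨qK, goodV.q⟩ ^ i) *
      (∑ i ∈ range k, ⟨tK, goodV.t⟩ ^ i) := by
    apply Subtype.ext
    rw [Subring.coe_mul]
    simp only [AddSubmonoidClass.coe_finsetSum, SubmonoidClass.coe_pow]
    rfl
  rw [this, map_mul, map_sum, map_sum]
  simp only [map_pow, evV_q, evV_t, one_pow, Finset.sum_const, Finset.card_range, nsmul_eq_mul,
    mul_one]
  ring

/-- `ε = q - 1` -/
noncomputable def eps : KK := qK - 1

lemma eps_mem : eps ∈ V := V.sub_mem goodV.q V.one_mem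

lemma evV_eps : evV ⟨eps, eps_mem⟩ = 0 := by
  have : (⟨eps, eps_mem⟩ : V) = ⟨qK, goodV.q⟩ - 1 := rfl
  rw [this, map_sub, evV_q, map_one, sub_self]

lemma reg_div_X_sub {y : RatFunc ℚ} (hy : RegAt 1 y) (h0 : valAt 1 y = 0) :
    RegAt 1 (y / (RatFunc.X - 1)) := by
  have hn : y.num.eval 1 = 0 := by
    unfold valAt RatFunc.eval at h0
    rcases div_eq_zero_iff.1 h0 with h | h
    · exact h
    · exact absurd h hy
  obtain ⟨s, hs⟩ := Polynomial.dvd_iff_isRoot.2 hn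
  have e : y / (RatFunc.X - 1) = algebraMap _ (RatFunc ℚ) s / algebraMap _ (RatFunc ℚ) y.denom := by
    have h1 := RatFunc.num_div_denom y
    have h3 : algebraMap _ (RatFunc ℚ) y.denom ≠ 0 :=
      RatFunc.algebraMap_ne_zero (RatFunc.denom_ne_zero y)
    have h4 : (RatFunc.X - 1 : RatFunc ℚ) ≠ 0 := by
      intro h
      have h5 : (RatFunc.X : RatFunc ℚ).num = (1 : RatFunc ℚ).num := by rw [sub_eq_zero.1 h]
      rw [RatFunc.num_X, RatFunc.num_one] at h5
      exact Polynomial.X_ne_C 1 h5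
    have h6 : algebraMap (Polynomial ℚ) (RatFunc ℚ) y.num =
        (RatFunc.X - 1) * algebraMap (Polynomial ℚ) (RatFunc ℚ) s := by
      rw [hs, map_mul, map_sub, RatFunc.algebraMap_X, RatFunc.algebraMap_C, map_one]
    rw [h6] at h1
    generalize algebraMap (Polynomial ℚ) (RatFunc ℚ) y.denom = Dn at h1 h3 ⊢
    rw [← h1]
    field_simp
  rw [e]
  exact RegAt.of_dvd (RatFunc.denom_div_dvd _ _) hy

lemma div_eps {x : KK} (hx : x ∈ V) (h0 : evV ⟨x, hx⟩ = 0) : ∃ y ∈ V, x = eps * y := by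
  have he : eps ≠ 0 := by
    intro h
    have h1 : MK = 0 := by
      unfold MK
      unfold eps at h
      have : (1 : KK) - qK = 0 := by
        rw [← neg_sub, h, neg_zero]
      rw [this, zero_mul]
    exact MK_ne h1
  refine ⟨x / eps, ?_, by field_simp⟩
  have e : x / eps = x * RatFunc.C ((RatFunc.X - 1)⁻¹ : RatFunc ℚ) := by
    rw [div_eq_mul_inv]
    congr 1
    rw [map_inv₀, map_sub, map_one]
    rfl
  rw [e]
  refine ⟨hx.1.mul (RegAt.C _ _), ?_⟩
  rw [valAt_mul hx.1 (RegAt.C _ _), valAt_C, ← div_eq_mul_inv]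
  exact reg_div_X_sub hx.2 h0

/-- the coefficients `γ_k` -/
lemma gam_mem (c : ℕ) (k : ℕ) : gam c k ∈ V := by
  unfold gam
  refine expo_mem V goodV.rat _ (fun k => ?_) k
  refine V.neg_mem (V.mul_mem (natCast_mem V c) ?_)
  rw [Mk_eq]
  exact V.mul_mem goodV.M (goodV.nk k)

lemma gam_zero_ev (c : ℕ) : evV ⟨gam c 0, gam_mem c 0⟩ = 1 := by
  have : (⟨gam c 0, gam_mem c 0⟩ : V) = 1 := by
    apply Subtype.ext
    exact expo_zero _
  rw [this, map_one]

lemma gam_succ_ev (c : ℕ) (k : ℕ) : evV ⟨gam c (k + 1), gam_mem c (k + 1)⟩ = 0 := by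
  have e := expo_succ' (fun k => - ((c : KK) * Mk k)) k
  have e2 : ((k : V) + 1) * ⟨gam c (k + 1), gam_mem c (k + 1)⟩ = ∑ ij ∈ antidiagonal k,
      -((c : V) * ((⟨MK, goodV.M⟩ : V) * (⟨nk (ij.1 + 1), goodV.nk _⟩ : V))) *
        (⟨gam c ij.2, gam_mem c _⟩ : V) := by
    apply Subtype.ext
    rw [Subring.coe_mul, Subring.coe_add, AddSubmonoidClass.coe_finsetSum]
    simp only [Subring.coe_mul, Subring.coe_neg, Subring.coe_natCast, Subring.coe_one]
    simp only [← Mk_eq]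
    exact e
  have e3 := congrArg evV e2
  rw [map_mul, map_add, map_sum, map_natCast, map_one] at e3
  have e4 : ∑ ij ∈ antidiagonal k, evV (-((c : V) * ((⟨MK, goodV.M⟩ : V) *
      (⟨nk (ij.1 + 1), goodV.nk _⟩ : V))) * (⟨gam c ij.2, gam_mem c _⟩ : V)) = 0 := by
    refine Finset.sum_eq_zero fun ij _ => ?_
    rw [map_mul, map_neg, map_mul, map_mul, evV_M]
    ring
  rw [e4] at e3
  have h5 : ((k : ℚ) + 1) ≠ 0 := by positivity
  exact (mul_eq_zero.1 e3).resolve_left h5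

lemma gam_lin (c : ℕ) (k : ℕ) :
    ∃ d ∈ V, MK⁻¹ * gam c (k + 1) = -(c * ((k : KK) + 1)) + eps * d := by
  have e := expo_succ' (fun k => - ((c : KK) * Mk k)) k
  set g : V := (⟨algebraMap ℚ KK ((k : ℚ) + 1)⁻¹, goodV.rat _⟩ : V) * ∑ ij ∈ antidiagonal k,
      -((c : V) * (⟨nk (ij.1 + 1), goodV.nk _⟩ : V)) * (⟨gam c ij.2, gam_mem c _⟩ : V) with hg
  have hk0 : ((k : KK) + 1) ≠ 0 := by
    have : ((k : KK) + 1) = ((k + 1 : ℕ) : KK) := by push_cast; ring
    rw [this]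
    exact Nat.cast_ne_zero.2 (by omega)
  have hcoe : algebraMap ℚ KK ((k : ℚ) + 1)⁻¹ = ((k : KK) + 1)⁻¹ := by
    rw [map_inv₀, map_add, map_natCast, map_one]
  have e1 : MK⁻¹ * gam c (k + 1) = (g : KK) := by
    rw [hg, Subring.coe_mul, AddSubmonoidClass.coe_finsetSum]
    simp only [Subring.coe_mul, Subring.coe_neg, Subring.coe_natCast]
    rw [hcoe, eq_inv_mul_iff_mul_eq₀ hk0]
    have e' : ((k : KK) + 1) * (MK⁻¹ * gam c (k + 1)) = MK⁻¹ * (((k : KK) + 1) * gam c (k + 1)) := by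
      ring
    rw [e']
    have e'' : ((k : KK) + 1) * gam c (k + 1) = _ := e
    rw [e'', Finset.mul_sum]
    refine Finset.sum_congr rfl fun ij _ => ?_
    rw [Mk_eq]
    have h := MK_ne
    show MK⁻¹ * (-((c : KK) * (MK * nk (ij.1 + 1))) * gam c ij.2) = _
    field_simp
  have e2 : evV g = -(c * (k + 1)) := by
    rw [hg, map_mul, evV_rat, map_sum]
    have e3 : ∑ ij ∈ antidiagonal k, evV (-((c : V) * (⟨nk (ij.1 + 1), goodV.nk _⟩ : V)) *
        (⟨gam c ij.2, gam_mem c _⟩ : V)) = -(c * ((k : ℚ) + 1) ^ 2) := by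
      rw [Finset.sum_eq_single (k, 0)]
      · rw [map_mul, map_neg, map_mul, map_natCast, evV_nk, gam_zero_ev]
        push_cast
        ring
      · rintro ⟨i, j⟩ hij hne
        cases j with
        | zero =>
          rw [Finset.HasAntidiagonal.mem_antidiagonal] at hij
          simp only [add_zero] at hij
          exact absurd (by rw [hij]) hne
        | succ j => rw [map_mul, gam_succ_ev, mul_zero]
      · intro h
        exact absurd (by rw [Finset.HasAntidiagonal.mem_antidiagonal]; rfl) h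
    rw [e3]
    have h5 : ((k : ℚ) + 1) ≠ 0 := by positivity
    field_simp
  have e3 : evV (g + c * ((k : V) + 1)) = 0 := by
    rw [map_add, e2, map_mul, map_natCast, map_add, map_natCast, map_one]
    ring
  obtain ⟨d, hd, hd'⟩ := div_eps (g + c * ((k : V) + 1)).2 e3
  refine ⟨d, hd, ?_⟩
  rw [e1, ← hd']
  clear_value g
  have : ((g + c * ((k : V) + 1) : V) : KK) = (g : KK) + (c : KK) * ((k : KK) + 1) := by
    rw [Subring.coe_add, Subring.coe_mul, Subring.coe_add, Subring.coe_natCast,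
      Subring.coe_natCast, Subring.coe_one]
  rw [this]
  ring

/-- `A ≡ B` modulo `(q - 1) F` -/
def Approx (A B : Endo KK) : Prop := ∃ E : Endo KK, InF MK V E ∧ A = B + eps • E

lemma Approx.refl (A : Endo KK) : Approx A A := ⟨0, InF.zero, by rw [smul_zero, add_zero]⟩

lemma Approx.smul {A B : Endo KK} (h : Approx A B) {c : KK} (hc : c ∈ V) :
    Approx (c • A) (c • B) := by
  obtain ⟨E, hE, rfl⟩ := h
  exact ⟨c • E, hE.smul hc, by rw [smul_add, smul_comm]⟩

lemma Approx.trans {A B C : Endo KK} (h : Approx A B) (h' : Approx B C) : Approx A C := by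
  obtain ⟨E, hE, rfl⟩ := h
  obtain ⟨E', hE', rfl⟩ := h'
  exact ⟨E' + E, hE'.add hE, by rw [smul_add, add_assoc]⟩

lemma br_add_right (M : KK) (A B B' : Endo KK) : br M A (B + B') = br M A B + br M A B' := by
  refine LinearMap.ext fun x => ?_
  simp only [br_apply, LinearMap.add_apply, map_add, smul_sub, smul_add]
  ring

lemma Approx.br {A B A' B' : Endo KK} (hA : InF MK V A) (hB' : InF MK V B')
    (h : Approx A A') (h' : Approx B B') : Approx (br MK A B) (br MK A' B') := by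
  obtain ⟨E, hE, e⟩ := h
  obtain ⟨E', hE', e'⟩ := h'
  refine ⟨EH.br MK A E' + EH.br MK E B', (hA.br MK_ne hE').add (hE.br MK_ne hB'), ?_⟩
  rw [e', br_add_right, br_smul_right]
  have : EH.br MK A B' = EH.br MK A' B' + eps • EH.br MK E B' := by
    rw [e, br_add_left, br_smul_left]
  rw [this, smul_add]
  abel

end Pool.Agent.H209R2.EH
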