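import Mathlib
import Pool.Agent.H209R2.EHApprox

set_option autoImplicit false

/-!
# `M⁻¹ [W_{m,a}, W_{n,b}] ≡ const · W_{m+n,a+b}` modulo `(q - 1)`
-/

namespace Pool.Agent.H209R2.EH

open MvPolynomial Finset

/-- the classical part of the functional -/
noncomputable def Scl (m n : ℕ) (A B : ℤ) : Sym :=
  ∑ k ∈ range (B.toNat + 1), (k : KK) • (al m (A + k) * al n (B - k))
      - ∑ k ∈ range (A.toNat + 1), (k : KK) • (al m (A - k) * al n (B + k))

lemma Scl_eq (m n : ℕ) (A B : ℤ) : Scl m n A B =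
    ∑ k ∈ range (B.toNat + 1), (k : Sym) * (al m (A + k) * al n (B - k))
      - ∑ k ∈ range (A.toNat + 1), (k : Sym) * (al m (A - k) * al n (B + k)) := by
  unfold Scl
  have h : ∀ (k : ℕ) (x : Sym), (k : KK) • x = (k : Sym) * x := by
    intro k x
    rw [MvPolynomial.smul_eq_C_mul, map_natCast]
  congr 1
  · exact Finset.sum_congr rfl fun k _ => h k _
  · exact Finset.sum_congr rfl fun k _ => h k _

lemma psiC_decomp (m n : ℕ) (a b : ℤ) : ∃ ψ0 : ℕ → ℕ → Sym, (∀ i j, ψ0 i j ∈ LR V) ∧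
    ∀ i j, MK⁻¹ • psiC m n a b i j =
      (-((m : KK) * n)) • Scl m n (a + i) (b + j) + eps • ψ0 i j := by
  choose d hd hd' using gam_lin (m * n)
  refine ⟨fun i j => (∑ k ∈ range (b + j).toNat, d k •
    (al m (a + i + ((k + 1 : ℕ) : ℤ)) * al n (b + j - ((k + 1 : ℕ) : ℤ)))) -
    ∑ k ∈ range (a + i).toNat, d k •
    (al m (a + i - ((k + 1 : ℕ) : ℤ)) * al n (b + j + ((k + 1 : ℕ) : ℤ))), ?_, ?_⟩
  · intro i j
    refine (LR V).sub_mem ((LR V).sum_mem fun k _ => ?_) ((LR V).sum_mem fun k _ => ?_)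
    · exact smul_mem_LR (hd k) ((LR V).mul_mem (goodV.al _ _) (goodV.al _ _))
    · exact smul_mem_LR (hd k) ((LR V).mul_mem (goodV.al _ _) (goodV.al _ _))
  · intro i j
    unfold psiC Scl
    rw [Finset.sum_range_succ', Finset.sum_range_succ', Finset.sum_range_succ',
      Finset.sum_range_succ']
    have hmn : (m : KK) * n = ((m * n : ℕ) : KK) := by push_cast; ring
    have h1 : ∀ k, MK⁻¹ * gam ((m : KK) * n) (k + 1) = -((m : KK) * n * ((k : KK) + 1)) + eps * d k := by
      intro k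
      rw [hmn]
      exact hd' k
    have h2 : ∀ (k : ℕ), (((k + 1 : ℕ) : KK)) = (k : KK) + 1 := by
      intro k
      push_cast
      ring
    simp only [h2]
    simp only [Nat.cast_zero, add_zero, sub_zero, zero_smul]
    rw [add_sub_add_right_eq_sub, smul_sub, Finset.smul_sum, Finset.smul_sum, smul_sub,
      Finset.smul_sum, Finset.smul_sum, smul_sub, Finset.smul_sum, Finset.smul_sum]
    have h3 : ∀ (k : ℕ) (x : Sym), (-((m : KK) * n * ((k : KK) + 1)) + eps * d k) • x
        = (-((m : KK) * n) * ((k : KK) + 1)) • x + (eps * d k) • x := by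
      intro k x
      rw [← add_smul]
      congr 1
      ring
    simp only [smul_smul, h1, h3]
    rw [Finset.sum_add_distrib, Finset.sum_add_distrib]
    abel

lemma br_W (m n : ℕ) (hmn : 1 ≤ m + n) (a b : ℤ) :
    Approx (br MK (W m a) (W n b))
      (((m : KK) * n * ((m : KK) + n)⁻¹ * (n * a - m * b)) • W (m + n) (a + b)) := by
  obtain ⟨ψ0, h0, h1⟩ := psiC_decomp m n a b
  refine ⟨_, fn2_T2_InF goodV m n ψ0 h0, ?_⟩
  refine LinearMap.ext fun g => ?_
  have hc : ((m : KK) + n) ≠ 0 := by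
    have : ((m : KK) + n) = ((m + n : ℕ) : KK) := by push_cast; ring
    rw [this]
    exact Nat.cast_ne_zero.2 (by omega)
  have e1 : br MK (W m a) (W n b) g = fn2 (fun i j => MK⁻¹ • psiC m n a b i j) (T2 m n g) := by
    rw [br_apply, comm_W]
    have := fn2_smul MK⁻¹ (fun i j => psiC m n a b i j) (T2 m n g)
    rw [this]
  have e2 : (fun i j => MK⁻¹ • psiC m n a b i j) = fun i j : ℕ =>
      (-((m : KK) * n)) • Scl m n (a + i) (b + j) + eps • ψ0 i j := by
    funext i j
    exact h1 i j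
  have e3 : ∀ i j : ℕ, Scl m n (a + i) (b + j) = ((m : KK) + n)⁻¹ •
      (((m : Sym) * ((b + j : ℤ) : Sym) - n * ((a + i : ℤ) : Sym)) *
      al (m + n) (a + i + (b + j))) := by
    intro i j
    have h := classical_sum m n (a + i) (b + j)
    rw [← h, ← Scl_eq, MvPolynomial.smul_eq_C_mul, ← mul_assoc]
    have : (C ((m : KK) + n)⁻¹ : Sym) * ((m : Sym) + (n : Sym)) = 1 := by
      have h2 : ((m : Sym) + (n : Sym)) = C ((m : KK) + n) := by simp
      rw [h2, ← map_mul, inv_mul_cancel₀ hc, map_one]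
    rw [this, one_mul]
  rw [e1, e2, fn2_add]
  have e4 := fn2_smul (-((m : KK) * n)) (fun i j : ℕ => Scl m n (a + i) (b + j)) (T2 m n g)
  have e5 := fn2_smul eps ψ0 (T2 m n g)
  rw [e4, e5]
  simp only [e3]
  have e6 := fn2_smul ((m : KK) + n)⁻¹ (fun i j : ℕ =>
    (((m : Sym) * ((b + j : ℤ) : Sym) - n * ((a + i : ℤ) : Sym)) *
      al (m + n) (a + i + (b + j)))) (T2 m n g)
  rw [e6, classical_T2]
  show _ = ((m : KK) * n * ((m : KK) + n)⁻¹ * (n * a - m * b)) • W (m + n) (a + b) g +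
    eps • fn2 ψ0 (T2 m n g)
  congr 1
  have e7 : ((((m : ℤ) * b - n * a : ℤ)) : Sym) = C ((m : KK) * b - n * a) := by
    simp
  rw [e7, ← MvPolynomial.smul_eq_C_mul, smul_smul, smul_smul]
  congr 1
  ring

lemma fn_C_mul (ψ : ℕ → Sym) (c : Sym) (f : Polynomial Sym) :
    fn ψ (Polynomial.C c * f) = c * fn ψ f := by
  have : Polynomial.C c * f = c • f := by
    rw [Polynomial.smul_eq_C_mul]
  rw [this, map_smul, smul_eq_mul]

lemma fn_X_mul (ψ : ℕ → Sym) (f : Polynomial Sym) :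
    fn ψ (Polynomial.X * f) = fn (fun i => ψ (i + 1)) f := by
  induction f using Polynomial.induction_on' with
  | add p q hp hq => rw [mul_add, map_add, map_add, hp, hq]
  | monomial i c => rw [Polynomial.X_mul_monomial, fn_monomial, fn_monomial]

lemma br_W_p1 (m : ℕ) (a : ℤ) : br MK (W m a) (mulop (pw 1)) = (m : KK) • W m (a + 1) := by
  refine LinearMap.ext fun g => ?_
  rw [br_apply]
  show MK⁻¹ • (W m a (pw 1 * g) - pw 1 * W m a g) = (m : KK) • W m (a + 1) g
  rw [W_apply, W_apply, W_apply, map_mul, shift_pw, add_mul, map_add, fn_C_mul, add_sub_cancel_left,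
    pow_one, mul_assoc, fn_C_mul, fn_X_mul]
  have h1 : Mk 1 = MK := by
    unfold Mk MK
    simp
  rw [h1, ← MvPolynomial.smul_eq_C_mul, smul_smul]
  have h2 : MK⁻¹ * ((m : KK) * MK) = m := by
    have := MK_ne
    field_simp
  rw [h2]
  congr 2
  congr 1
  funext i
  congr 1
  push_cast
  ring

end Pool.Agent.H209R2.EH
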