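import Mathlib
import Pool.Agent.H209R2.EHExpo

set_option autoImplicit false

/-!
# A left inverse for `i ↦ s_i · [z^{i(r+1)}] exp (- i ∑ p_k z^k / k)`
-/

namespace Pool.Agent.H209R2.EH

open Finset

section
variable {A : Type*} [CommRing A] [Algebra ℚ A]

lemma expo_congr (x y : ℕ → A) (n : ℕ) (h : ∀ k, 1 ≤ k → k ≤ n → x k = y k) :
    expo x n = expo y n := by
  induction n using Nat.strong_induction_on with
  | _ n ih =>
    cases n with
    | zero => rw [expo_zero, expo_zero]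
    | succ n =>
      rw [expo, expo]
      congr 1
      refine Finset.sum_congr rfl fun i _ => ?_
      rw [h (i + 1) (by omega) (by omega), ih (n - i) (by omega) (fun k h1 h2 => h k h1 (by omega))]

lemma expo_top (x : ℕ → A) (n : ℕ) :
    expo x (n + 1) = ((n : ℚ) + 1)⁻¹ • x (n + 1)
      + expo (fun k => if k < n + 1 then x k else 0) (n + 1) := by
  have h1 : expo x (n + 1) = ((n : ℚ) + 1)⁻¹ • ∑ ij ∈ antidiagonal n, x (ij.1 + 1) * expo x ij.2 := by
    rw [← expo_succ, smul_smul, inv_mul_cancel₀ (by positivity), one_smul]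
  have h2 := expo_succ (fun k => if k < n + 1 then x k else 0) n
  have h2' : expo (fun k => if k < n + 1 then x k else 0) (n + 1) = ((n : ℚ) + 1)⁻¹ •
      ∑ ij ∈ antidiagonal n, (if ij.1 + 1 < n + 1 then x (ij.1 + 1) else 0) *
        expo (fun k => if k < n + 1 then x k else 0) ij.2 := by
    rw [← h2, smul_smul, inv_mul_cancel₀ (by positivity), one_smul]
  rw [h1, h2', ← smul_add]
  congr 1
  have h3 : x (n + 1) = ∑ ij ∈ antidiagonal n, if ij = (n, 0) then x (n + 1) else 0 := by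
    rw [Finset.sum_ite_eq' (antidiagonal n) (n, 0) (fun _ => x (n + 1)), if_pos]
    rw [Finset.HasAntidiagonal.mem_antidiagonal]
    rfl
  conv_rhs => rw [h3]
  rw [← Finset.sum_add_distrib]
  refine Finset.sum_congr rfl fun ij hij => ?_
  rw [Finset.HasAntidiagonal.mem_antidiagonal] at hij
  obtain ⟨i, j⟩ := ij
  simp only at hij ⊢
  by_cases hj : j = 0
  · subst hj
    have : i = n := by omega
    subst this
    rw [if_pos rfl, if_neg (by omega), expo_zero]
    ring
  · rw [if_neg (by rintro h; apply hj; exact (Prod.ext_iff.1 h).2), if_pos (by omega), zero_add]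
    congr 1
    refine expo_congr _ _ _ fun k _ h2 => ?_
    rw [if_pos (by omega)]

/-- solving the triangular system -/
lemma exists_solution (r : ℕ) (s : ℕ → ℚ) (hs : ∀ i, 1 ≤ i → s i ≠ 0) (y : ℕ → A) :
    ∃ v : ℕ → A, ∀ i, 1 ≤ i → s i • expo (fun k => - ((i : A) * v k)) (i * (r + 1)) = y i := by
  classical
  let Φ : (N : ℕ) → ((m : ℕ) → m < N → A) → A := fun N w =>
    if (r + 1) ∣ N ∧ 0 < N then
      -(((r : ℚ) + 1) • ((s (N / (r + 1)))⁻¹ • y (N / (r + 1)) -
        expo (fun k => if h : k < N then - (((N / (r + 1) : ℕ) : A) * w k h) else 0) N))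
    else 0
  let v : ℕ → A := fun N => WellFounded.fix (r := (· < ·)) Nat.lt_wfRel.wf Φ N
  have hv : ∀ N, v N = Φ N fun m _ => v m := fun N => WellFounded.fix_eq _ Φ N
  refine ⟨v, fun i hi => ?_⟩
  obtain ⟨n, hn⟩ : ∃ n, i * (r + 1) = n + 1 := ⟨i * (r + 1) - 1, by
    have : 0 < i * (r + 1) := Nat.mul_pos (by omega) (by omega)
    omega⟩
  rw [hn, expo_top]
  have h1 : (r + 1) ∣ n + 1 ∧ 0 < n + 1 := ⟨⟨i, by rw [← hn]; ring⟩, by omega⟩
  have h2 : (n + 1) / (r + 1) = i := by
    rw [← hn, Nat.mul_div_cancel _ (by omega)]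
  have h3 := hv (n + 1)
  have h4 : Φ (n + 1) (fun m _ => v m) = -(((r : ℚ) + 1) • ((s i)⁻¹ • y i -
        expo (fun k => if k < n + 1 then - ((i : A) * v k) else 0) (n + 1))) := by
    show (if (r + 1) ∣ n + 1 ∧ 0 < n + 1 then _ else _) = _
    rw [if_pos h1, h2]
    simp only [dite_eq_ite]
  rw [h3, h4]
  set E := expo (fun k => if k < n + 1 then - ((i : A) * v k) else 0) (n + 1) with hE
  have hi0 : (i : ℚ) ≠ 0 := by
    have : i ≠ 0 := by omega
    exact_mod_cast this
  have hn' : ((n : ℚ) + 1) = i * (r + 1) := by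
    have := congrArg (fun z : ℕ => (z : ℚ)) hn
    push_cast at this
    linarith
  have e1 : -((i : A) * -(((r : ℚ) + 1) • ((s i)⁻¹ • y i - E)))
      = ((i : ℚ) * ((r : ℚ) + 1)) • ((s i)⁻¹ • y i - E) := by
    rw [mul_neg, neg_neg, mul_smul, Algebra.smul_def (i : ℚ), map_natCast]
  rw [e1, hn', smul_smul]
  have hr0 : ((r : ℚ) + 1) ≠ 0 := by positivity
  rw [inv_mul_cancel₀ (mul_ne_zero hi0 hr0), one_smul, sub_add_cancel, smul_smul,
    mul_inv_cancel₀ (hs i hi), one_smul]

end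

end Pool.Agent.H209R2.EH
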