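import Mathlib
import Pool.Agent.H209R2.EHBrW

set_option autoImplicit false

/-!
# The operators `Q_{m,n}` lie in the filtration ring; `Q_{d,d}` modulo `(q - 1)`
-/

namespace Pool.Agent.H209R2.EH

open MvPolynomial Finset

lemma hh_mem {R : Subring KK} (h : Good R) (n : ℕ) : hh n ∈ LR R := by
  unfold hh
  refine expo_mem (LR R) h.rat' _ (fun k => ?_) _
  cases k with
  | zero => exact (LR R).zero_mem
  | succ k => exact X_mem_LR R _

lemma hZ_mem {R : Subring KK} (h : Good R) (n : ℤ) : hZ n ∈ LR R := by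
  unfold hZ
  split_ifs
  · exact hh_mem h _
  · exact (LR R).zero_mem

lemma schur_mem {R : Subring KK} (h : Good R) (l : List ℕ) : schur l ∈ LR R := by
  unfold schur
  rw [Matrix.det_apply]
  refine (LR R).sum_mem fun σ _ => ?_
  rcases Int.units_eq_one_or (Equiv.Perm.sign σ) with hs | hs
  · rw [hs, one_smul]
    exact (LR R).prod_mem fun i _ => hZ_mem h _
  · rw [hs, Units.neg_smul, one_smul]
    exact (LR R).neg_mem ((LR R).prod_mem fun i _ => hZ_mem h _)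

lemma qq_mem {R : Subring KK} (h : Good R) (n : ℕ) : qq n ∈ LR R := by
  unfold qq
  refine (LR R).sum_mem fun jk _ => (LR R).mul_mem (C_mem_LR (R.pow_mem ?_ _)) (schur_mem h _)
  have e : (-(qK * tK))⁻¹ = -(qK * tK)⁻¹ := neg_inv.symm
  rw [e]
  exact R.neg_mem h.qtinv

lemma units_mem {R : Subring KK} (σ : ℤˣ) : (((σ : ℤ) : KK)) ∈ R := intCast_mem R _

lemma D_InF {R : Subring KK} (h : Good R) (k : ℤ) : InF MK R (D k) := by
  rw [D_eq_W]
  exact W_InF h 1 k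

lemma Q_InF {R : Subring KK} (h : Good R) (r : ℕ) (σ τ : ℤˣ) (m n : ℕ) :
    InF MK R (Q r σ τ m n) := by
  induction m, n using Q.induct with
  | case1 n =>
    rw [Q]
    exact InF.mulop (qq_mem h n)
  | case2 m =>
    rw [Q]
    exact (D_InF h r).smul (units_mem σ)
  | case3 m n d k l ih1 ih2 =>
    rw [Q]
    have e : ∀ A B : Endo KK, (((τ : ℤ) : KK) * MK⁻¹) • (A * B - B * A)
        = ((τ : ℤ) : KK) • br MK A B := by
      intro A B
      unfold br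
      rw [smul_smul]
    rw [e]
    exact (InF.br MK_ne ih1 ih2).smul (units_mem τ)

lemma qq_one : qq 1 = pw 1 := by
  unfold qq
  rw [Nat.sub_self, Finset.Nat.antidiagonal_zero, Finset.sum_singleton]
  simp only [pow_zero, map_one, one_mul, List.replicate_zero, zero_add]
  unfold schur
  rw [Matrix.det_fin_one]
  simp only [Matrix.of_apply]
  show hZ ((1 : ℤ) - ((0 : Fin 1) : ℕ) + ((0 : Fin 1) : ℕ)) = pw 1
  have : ((1 : ℤ) - ((0 : Fin 1) : ℕ) + ((0 : Fin 1) : ℕ)) = 1 := by simp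
  rw [this]
  unfold hZ hh
  rw [if_pos (by norm_num)]
  exact expo_one pw

lemma Q01 (r : ℕ) (σ τ : ℤˣ) : Q r σ τ 0 1 = mulop (pw 1) := by
  rw [Q, qq_one]
  rfl

lemma Q10 (r : ℕ) (σ τ : ℤˣ) : Q r σ τ 1 0 = ((σ : ℤ) : KK) • W 1 r := by
  rw [Q, D_eq_W]

lemma splitK_one (b : ℕ) : splitK 1 b = 0 := by
  have h : splitK 1 b < 1 := splitK_lt (by omega) (Nat.coprime_one_left b)
  omega

lemma splitL_one (b : ℕ) : splitL 1 b = 1 := by
  unfold splitL
  rw [splitK_one]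
  simp

lemma splitK_succ (a : ℕ) (ha : 1 ≤ a) : splitK (a + 1) a = 1 := by
  unfold splitK
  have h1 : (1 : ℕ) ∈ {k | (a + 1) ∣ a * k + 1} := by simp
  have h2 : (0 : ℕ) ∉ {k | (a + 1) ∣ a * k + 1} := by
    simp only [Set.mem_ofPred_eq, mul_zero, zero_add, Nat.dvd_one]
    omega
  have h3 := Nat.sInf_le h1
  have h4 := Nat.sInf_mem (Set.nonempty_of_mem h1)
  have h5 : sInf {k | (a + 1) ∣ a * k + 1} ≠ 0 := fun h0 => h2 (h0 ▸ h4)
  omega

lemma splitL_succ (a : ℕ) (ha : 1 ≤ a) : splitL (a + 1) a = 1 := by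
  unfold splitL
  rw [splitK_succ a ha, mul_one]
  exact Nat.div_self (by omega)

/-- `Q_{d,d} = τ M⁻¹ [Q_{d,d-1}, Q_{0,1}]` -/
lemma Q_diag (r : ℕ) (σ τ : ℤˣ) (m : ℕ) :
    Q r σ τ (m + 1) (m + 1) = ((τ : ℤ) : KK) • br MK (Q r σ τ (m + 1) m) (mulop (pw 1)) := by
  rw [Q]
  simp only [Nat.gcd_self, Nat.div_self (Nat.succ_pos m), splitK_one, splitL_one, Nat.sub_zero,
    Nat.add_sub_cancel, Q01]
  unfold br
  rw [smul_smul]

/-- `Q_{d+1,d} = τ M⁻¹ [Q_{d,d-1}, Q_{1,1}]` for `d ≥ 1` -/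
lemma Q_near (r : ℕ) (σ τ : ℤˣ) (m : ℕ) :
    Q r σ τ (m + 2) (m + 1) =
      ((τ : ℤ) : KK) • br MK (Q r σ τ (m + 1) m) (Q r σ τ 1 1) := by
  rw [Q]
  have hg : Nat.gcd (m + 1 + 1) (m + 1) = 1 := by
    have : Nat.Coprime (m + 1 + 1) (m + 1) := by
      rw [Nat.coprime_comm]
      exact (Nat.coprime_self_add_right).2 (Nat.coprime_one_right _)
    exact this
  simp only [hg, Nat.div_one, splitK_succ (m + 1) (by omega), splitL_succ (m + 1) (by omega),
    Nat.add_sub_cancel]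
  unfold br
  rw [smul_smul]

lemma unit_ne (σ : ℤˣ) : ((σ : ℤ) : ℚ) ≠ 0 := by
  exact_mod_cast σ.ne_zero

lemma Q_near_approx (r : ℕ) (σ τ : ℤˣ) (m : ℕ) : ∃ s : ℚ, s ≠ 0 ∧
    Approx (Q r σ τ (m + 1) m) (algebraMap ℚ KK s • W (m + 1) ((m : ℤ) + r * ((m : ℤ) + 1))) := by
  induction m with
  | zero =>
    refine ⟨((σ : ℤ) : ℚ), unit_ne σ, ?_⟩
    rw [Q10, map_intCast]
    simp only [zero_add, Nat.cast_zero, mul_one]
    exact Approx.refl _
  | succ m ih =>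
    obtain ⟨s, hs, h⟩ := ih
    have h11 : Q r σ τ 1 1 = algebraMap ℚ KK (((τ : ℤ) : ℚ) * ((σ : ℤ) : ℚ)) • W 1 ((r : ℤ) + 1) := by
      have := Q_diag r σ τ 0
      simp only [zero_add] at this
      rw [this, Q10, br_smul_left, br_W_p1, smul_smul, smul_smul]
      congr 1
      simp
    have h2 := Approx.br (Q_InF goodV r σ τ (m + 1) m)
      (show InF MK V (Q r σ τ 1 1) from Q_InF goodV r σ τ 1 1) h (Approx.refl (Q r σ τ 1 1))
    have h3 : br MK (algebraMap ℚ KK s • W (m + 1) ((m : ℤ) + r * ((m : ℤ) + 1))) (Q r σ τ 1 1)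
        = (algebraMap ℚ KK s * algebraMap ℚ KK (((τ : ℤ) : ℚ) * ((σ : ℤ) : ℚ))) •
          br MK (W (m + 1) ((m : ℤ) + r * ((m : ℤ) + 1))) (W 1 ((r : ℤ) + 1)) := by
      rw [h11, br_smul_left, br_smul_right, smul_smul]
    rw [h3] at h2
    have h4 := br_W (m + 1) 1 (by omega) ((m : ℤ) + r * ((m : ℤ) + 1)) ((r : ℤ) + 1)
    have h5 := h2.trans (h4.smul (c := algebraMap ℚ KK s *
      algebraMap ℚ KK (((τ : ℤ) : ℚ) * ((σ : ℤ) : ℚ)))
      (V.mul_mem (goodV.rat _) (goodV.rat _)))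
    have h6 := h5.smul (c := ((τ : ℤ) : KK)) (units_mem τ)
    rw [← Q_near] at h6
    refine ⟨((τ : ℤ) : ℚ) * (s * (((τ : ℤ) : ℚ) * ((σ : ℤ) : ℚ)) *
      (((m : ℚ) + 1) * ((m : ℚ) + 1 + 1)⁻¹ * (-1))), ?_, ?_⟩
    · refine mul_ne_zero (unit_ne τ) (mul_ne_zero (mul_ne_zero hs
        (mul_ne_zero (unit_ne τ) (unit_ne σ))) (mul_ne_zero (mul_ne_zero ?_ ?_) (by norm_num)))
      · positivity
      · positivity
    · convert h6 using 1
      rw [smul_smul, smul_smul]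
      have e1 : ((m + 1 : ℕ) : ℤ) + r * (((m + 1 : ℕ) : ℤ) + 1)
          = (m : ℤ) + r * ((m : ℤ) + 1) + ((r : ℤ) + 1) := by
        push_cast
        ring
      rw [e1]
      congr 1
      simp only [map_mul, map_intCast, map_inv₀, map_add, map_natCast, map_one, map_neg]
      push_cast
      ring

lemma Q_diag_approx (r : ℕ) (σ τ : ℤˣ) (m : ℕ) : ∃ s : ℚ, s ≠ 0 ∧
    Approx (Q r σ τ (m + 1) (m + 1))
      (algebraMap ℚ KK s • W (m + 1) (((m + 1) * (r + 1) : ℕ) : ℤ)) := by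
  obtain ⟨s, hs, h⟩ := Q_near_approx r σ τ m
  have hp : InF MK V (mulop (pw 1)) := InF.mulop (by
    show X _ ∈ LR V
    exact X_mem_LR V _)
  have h2 := Approx.br (Q_InF goodV r σ τ (m + 1) m) hp h (Approx.refl (mulop (pw 1)))
  rw [br_smul_left, br_W_p1, smul_smul] at h2
  have h6 := h2.smul (c := ((τ : ℤ) : KK)) (units_mem τ)
  rw [← Q_diag, smul_smul] at h6
  refine ⟨((τ : ℤ) : ℚ) * (s * ((m : ℚ) + 1)), ?_, ?_⟩
  · exact mul_ne_zero (unit_ne τ) (mul_ne_zero hs (by positivity))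
  · convert h6 using 1
    have e1 : (((m + 1) * (r + 1) : ℕ) : ℤ) = (m : ℤ) + r * ((m : ℤ) + 1) + 1 := by
      push_cast
      ring
    rw [e1]
    congr 1
    simp only [map_mul, map_intCast, map_add, map_natCast, map_one]
    push_cast
    ring

end Pool.Agent.H209R2.EH
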