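import Mathlib
import Pool.Agent.H209R2.EHQ
import Pool.Agent.H209R2.EHIndep

set_option autoImplicit false

/-!
# Reductions, regularity of seeds, and the main theorem
-/

namespace Pool.Agent.H209R2.EH

open MvPolynomial Finset

/-! ### reductions -/

/-- `F` has coefficients in `R`, and its coefficientwise image under `ev` is `f` -/
def Red {R : Subring KK} {k : Type} [Field k] (ev : R →+* k) (F : Sym)
    (f : MvPolynomial ℕ+ k) : Prop :=
  ∃ F' : MvPolynomial ℕ+ R, MvPolynomial.map R.subtype F' = F ∧ MvPolynomial.map ev F' = f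

section
variable {R : Subring KK} {k : Type} [Field k] {ev : R →+* k}

lemma Red.unique {F : Sym} {f g : MvPolynomial ℕ+ k} (h : Red ev F f) (h' : Red ev F g) :
    f = g := by
  obtain ⟨F', h1, h2⟩ := h
  obtain ⟨G', h3, h4⟩ := h'
  have : F' = G' := MvPolynomial.map_injective R.subtype Subtype.val_injective (h1.trans h3.symm)
  rw [← h2, ← h4, this]

lemma exists_Red {F : Sym} (h : F ∈ LR R) : ∃ f, Red ev F f := by
  obtain ⟨F', h1⟩ := h
  exact ⟨_, F', h1, rfl⟩

lemma Red.mem {F : Sym} {f : MvPolynomial ℕ+ k} (h : Red ev F f) : F ∈ LR R := by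
  obtain ⟨F', h1, h2⟩ := h
  exact ⟨F', h1⟩

lemma Red.add {F G : Sym} {f g : MvPolynomial ℕ+ k} (h : Red ev F f) (h' : Red ev G g) :
    Red ev (F + G) (f + g) := by
  obtain ⟨F', rfl, rfl⟩ := h
  obtain ⟨G', rfl, rfl⟩ := h'
  exact ⟨F' + G', map_add _ _ _, map_add _ _ _⟩

lemma Red.mul {F G : Sym} {f g : MvPolynomial ℕ+ k} (h : Red ev F f) (h' : Red ev G g) :
    Red ev (F * G) (f * g) := by
  obtain ⟨F', rfl, rfl⟩ := h
  obtain ⟨G', rfl, rfl⟩ := h'
  exact ⟨F' * G', map_mul _ _ _, map_mul _ _ _⟩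

lemma Red.one : Red ev (1 : Sym) 1 := ⟨1, map_one _, map_one _⟩

lemma Red.zero : Red ev (0 : Sym) 0 := ⟨0, map_zero _, map_zero _⟩

lemma Red.smul {c : KK} (hc : c ∈ R) {F : Sym} {f : MvPolynomial ℕ+ k} (h : Red ev F f) :
    Red ev (c • F) (ev ⟨c, hc⟩ • f) := by
  rw [MvPolynomial.smul_eq_C_mul, MvPolynomial.smul_eq_C_mul]
  exact Red.mul ⟨C ⟨c, hc⟩, by simp, by simp⟩ h

lemma Red.sum {ι : Type*} (s : Finset ι) (F : ι → Sym) (f : ι → MvPolynomial ℕ+ k)
    (h : ∀ i ∈ s, Red ev (F i) (f i)) : Red ev (∑ i ∈ s, F i) (∑ i ∈ s, f i) := by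
  classical
  induction s using Finset.induction_on with
  | empty => exact Red.zero
  | insert a s ha ih =>
    rw [Finset.sum_insert ha, Finset.sum_insert ha]
    exact (h a (Finset.mem_insert_self _ _)).add (ih fun i hi => h i (Finset.mem_insert_of_mem hi))

/-- an operator of the filtration ring acts, modulo `ker ev ∋ M`, as multiplication by `A(1)` -/
lemma Red.apply {A : Endo KK} (hM : MK ∈ R) (hM0 : ev ⟨MK, hM⟩ = 0) (hA : InF MK R A)
    {h : Sym} {h' a : MvPolynomial ℕ+ k} (hh : Red ev h h') (ha : Red ev (A 1) a) :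
    Red ev (A h) (h' * a) := by
  rw [apply_eq MK_ne A h]
  obtain ⟨b, hb⟩ := exists_Red (ev := ev) ((hA.br_mulop hh.mem).mem (LR R).one_mem)
  have h2 := (hh.mul ha).add (hb.smul hM)
  rw [hM0, zero_smul, add_zero] at h2
  exact h2

lemma Red.list_prod (hM : MK ∈ R) (hM0 : ev ⟨MK, hM⟩ = 0) {ι : Type*} (l : List ι)
    (A : ι → Endo KK) (a : ι → MvPolynomial ℕ+ k) (hA : ∀ i ∈ l, InF MK R (A i))
    (ha : ∀ i ∈ l, Red ev (A i 1) (a i)) :
    Red ev ((l.map A).prod 1) (l.map a).prod := by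
  induction l with
  | nil =>
    simp only [List.map_nil, List.prod_nil]
    exact Red.one
  | cons i l ih =>
    rw [List.map_cons, List.map_cons, List.prod_cons, List.prod_cons, mul_comm (a i)]
    exact Red.apply hM hM0 (hA i List.mem_cons_self)
      (ih (fun j hj => hA j (List.mem_cons_of_mem _ hj))
        (fun j hj => ha j (List.mem_cons_of_mem _ hj))) (ha i List.mem_cons_self)

end

/-! ### membership of `Θ` -/

lemma Theta_InF {R : Subring KK} (h : Good R) (r : ℕ) (σ τ : ℤˣ) (a b : ℕ) {d : ℕ}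
    (c : d.Partition → KK) (hc : ∀ μ, c μ ∈ R) : InF MK R (Theta r σ τ a b c) := by
  unfold Theta
  refine InF.sum _ _ fun μ _ => InF.smul (hc μ) (InF.list_prod _ ?_)
  intro A hA
  rw [List.mem_map] at hA
  obtain ⟨i, _, rfl⟩ := hA
  exact Q_InF h r σ τ _ _

/-! ### the reduction of `Q_{i,i}(1)` -/

/-- the rational version of `pw` -/
noncomputable def pwQ : ℕ → MvPolynomial ℕ+ ℚ
  | 0 => 0
  | k + 1 => X k.succPNat

/-- the rational version of `al` -/
noncomputable def alQ (m r : ℕ) : MvPolynomial ℕ+ ℚ :=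
  expo (fun k => - ((m : MvPolynomial ℕ+ ℚ) * pwQ k)) r

lemma pw_eq (k : ℕ) : pw k = MvPolynomial.map (algebraMap ℚ KK) (pwQ k) := by
  cases k with
  | zero =>
    unfold pw pwQ
    rw [map_zero]
  | succ k =>
    unfold pw pwQ
    rw [MvPolynomial.map_X]

lemma al_eq_map (m r : ℕ) : al m r = MvPolynomial.map (algebraMap ℚ KK) (alQ m r) := by
  rw [al_nat]
  unfold alQ
  rw [expo_map (MvPolynomial.map (algebraMap ℚ KK))]
  congr 1
  funext k
  rw [map_neg, map_mul, map_natCast, pw_eq]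

/-- `ℚ → V` -/
noncomputable def ratV : ℚ →+* V :=
  (algebraMap ℚ KK).codRestrict V goodV.rat

lemma Red_rat (f : MvPolynomial ℕ+ ℚ) :
    Red evV (MvPolynomial.map (algebraMap ℚ KK) f) f := by
  refine ⟨MvPolynomial.map ratV f, ?_, ?_⟩
  · rw [MvPolynomial.map_map]
    rfl
  · rw [MvPolynomial.map_map]
    have : evV.comp ratV = RingHom.id ℚ := Subsingleton.elim _ _
    rw [this, MvPolynomial.map_id]

lemma W_one (m : ℕ) (a : ℤ) : W m a 1 = al m a := by
  rw [W_apply, map_one, ← Polynomial.C_1, ← Polynomial.monomial_zero_left, fn_monomial]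
  simp

lemma Red_Q_diag (r : ℕ) (σ τ : ℤˣ) (m : ℕ) : ∃ s : ℚ, s ≠ 0 ∧
    Red evV (Q r σ τ (m + 1) (m + 1) 1) (s • alQ (m + 1) ((m + 1) * (r + 1))) := by
  obtain ⟨s, hs, E, hE, e⟩ := Q_diag_approx r σ τ m
  refine ⟨s, hs, ?_⟩
  rw [e, LinearMap.add_apply, LinearMap.smul_apply, LinearMap.smul_apply, W_one, al_eq_map]
  obtain ⟨b, hb⟩ := exists_Red (ev := evV) (hE.mem (LR V).one_mem)
  have h2 := ((Red_rat (alQ (m + 1) ((m + 1) * (r + 1)))).smul (goodV.rat s)).add (hb.smul eps_mem)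
  rw [evV_eps, zero_smul, add_zero, evV_rat] at h2
  exact h2

/-- linear independence -/
lemma indep (r : ℕ) (s : ℕ → ℚ) (hs : ∀ i, 1 ≤ i → s i ≠ 0) (u : ℕ → MvPolynomial ℕ+ ℚ)
    (hu : ∀ i, 1 ≤ i → u i = s i • alQ i (i * (r + 1))) {d : ℕ} (c : d.Partition → ℚ)
    (h : ∑ μ : d.Partition, c μ • ((μ.parts.sort (· ≥ ·)).map u).prod = 0) (μ : d.Partition) :
    c μ = 0 := by
  obtain ⟨v, hv⟩ := exists_solution (A := MvPolynomial ℕ ℚ) r s hs (fun i => X i)
  set φ : MvPolynomial ℕ+ ℚ →ₐ[ℚ] MvPolynomial ℕ ℚ := aeval fun k : ℕ+ => v k with hφ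
  have hφu : ∀ i, 1 ≤ i → φ (u i) = X i := by
    intro i hi
    rw [hu i hi, map_smul, ← hv i hi]
    congr 1
    have e1 : φ (alQ i (i * (r + 1))) = expo (fun k => φ (- ((i : MvPolynomial ℕ+ ℚ) * pwQ k)))
        (i * (r + 1)) := expo_map φ.toRingHom _ _
    rw [e1]
    refine expo_congr _ _ _ fun k hk _ => ?_
    obtain ⟨k, rfl⟩ : ∃ k', k = k' + 1 := ⟨k - 1, by omega⟩
    rw [map_neg, map_mul, map_natCast]
    congr 2
    unfold pwQ
    rw [hφ, aeval_X]
    rfl
  have hprod : ∀ μ : d.Partition, φ ((μ.parts.sort (· ≥ ·)).map u).prod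
      = monomial (Multiset.toFinsupp μ.parts) 1 := by
    intro μ
    rw [map_list_prod, List.map_map]
    have e1 : ((μ.parts.sort (· ≥ ·)).map (φ ∘ u)) = (μ.parts.sort (· ≥ ·)).map X := by
      refine List.map_congr_left fun i hi => ?_
      rw [Multiset.mem_sort] at hi
      exact hφu i (μ.parts_pos hi)
    rw [e1]
    have e2 : ((μ.parts.sort (· ≥ ·)).map (X : ℕ → MvPolynomial ℕ ℚ)).prod
        = (μ.parts.map (X : ℕ → MvPolynomial ℕ ℚ)).prod := by
      conv_rhs => rw [← Multiset.sort_eq μ.parts (· ≥ ·)]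
      rw [Multiset.map_coe, Multiset.prod_coe]
    rw [e2]
    generalize μ.parts = S
    induction S using Multiset.induction_on with
    | empty => simp
    | cons a S ih =>
      rw [Multiset.map_cons, Multiset.prod_cons, ih, ← Multiset.singleton_add, map_add,
        Multiset.toFinsupp_singleton, X, monomial_mul, mul_one]
  have h2 := congrArg φ h
  rw [map_sum, map_zero] at h2
  simp only [map_smul, hprod] at h2
  have h3 := congrArg (coeff (Multiset.toFinsupp μ.parts)) h2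
  rw [coeff_sum, coeff_zero, Finset.sum_eq_single μ] at h3
  · rw [coeff_smul, coeff_monomial, if_pos rfl, smul_eq_mul, mul_one] at h3
    exact h3
  · intro ν _ hν
    rw [coeff_smul, coeff_monomial, if_neg, smul_zero]
    intro he
    apply hν
    have := Multiset.toFinsupp.injective he
    exact Nat.Partition.ext this
  · intro hμ
    exact absurd (Finset.mem_univ μ) hμ

/-! ### seeds are regular -/

lemma SchurPositive.mem {F : Sym} (h : SchurPositive F) : F ∈ LR V := by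
  obtain ⟨s, c, rfl⟩ := h
  refine (LR V).sum_mem fun l _ => (LR V).mul_mem (C_mem_LR ?_) (schur_mem goodV _)
  generalize c l = P
  induction P using MvPolynomial.induction_on with
  | C a =>
    rw [eval₂_C]
    exact natCast_mem V a
  | add p q hp hq =>
    rw [eval₂_add]
    exact V.add_mem hp hq
  | mul_X p i hp =>
    rw [eval₂_mul, eval₂_X]
    refine V.mul_mem hp ?_
    fin_cases i
    · exact goodV.q
    · exact goodV.t

lemma seed_regular (r : ℕ) (σ τ : ℤˣ) {d : ℕ} (c : d.Partition → KK) (h : IsSeed r σ τ c)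
    (μ : d.Partition) : c μ ∈ V := by
  classical
  have hF := (h 1 1 le_rfl le_rfl (Nat.coprime_one_left 1)).mem
  by_contra hcon
  have hne : ∃ i ∈ (Finset.univ : Finset d.Partition), c i ≠ 0 :=
    ⟨μ, Finset.mem_univ _, fun h0 => hcon (by rw [h0]; exact V.zero_mem)⟩
  obtain ⟨ν, _, hν0, hν⟩ := exists_dominant Finset.univ c hne
  have hνV : c ν ∉ V := by
    intro hV
    apply hcon
    have := V.mul_mem (hν μ (Finset.mem_univ _)) hV
    rwa [div_mul_cancel₀ _ hν0] at this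
  obtain ⟨hinv, hev⟩ := V_inv hνV
  have hQ : ∀ i : ℕ, ∃ s : ℚ, s ≠ 0 ∧
      (1 ≤ i → Red evV (Q r σ τ i i 1) (s • alQ i (i * (r + 1)))) := by
    intro i
    cases i with
    | zero => exact ⟨1, one_ne_zero, fun h => absurd h (by omega)⟩
    | succ m =>
      obtain ⟨s, hs, h⟩ := Red_Q_diag r σ τ m
      exact ⟨s, hs, fun _ => h⟩
  choose s hs hred using hQ
  -- the scaled family
  have h1 : Red evV ((c ν)⁻¹ • Theta r σ τ 1 1 c 1) 0 := by
    obtain ⟨b, hb⟩ := exists_Red (ev := evV) hF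
    have h2 := hb.smul hinv
    rw [hev, zero_smul] at h2
    exact h2
  have h2 : (c ν)⁻¹ • Theta r σ τ 1 1 c 1 = ∑ μ : d.Partition, (c μ / c ν) •
      ((μ.parts.sort (· ≥ ·)).map fun i => Q r σ τ i i).prod 1 := by
    unfold Theta
    rw [LinearMap.sum_apply, Finset.smul_sum]
    refine Finset.sum_congr rfl fun μ _ => ?_
    rw [LinearMap.smul_apply, smul_smul]
    simp only [one_mul]
    congr 1
    rw [div_eq_mul_inv, mul_comm]
  have h3 : Red evV (∑ μ : d.Partition, (c μ / c ν) •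
      ((μ.parts.sort (· ≥ ·)).map fun i => Q r σ τ i i).prod 1)
      (∑ μ : d.Partition, evV ⟨c μ / c ν, hν μ (Finset.mem_univ _)⟩ •
        ((μ.parts.sort (· ≥ ·)).map fun i => s i • alQ i (i * (r + 1))).prod) := by
    refine Red.sum _ _ _ fun μ _ => Red.smul (hν μ (Finset.mem_univ _)) ?_
    refine Red.list_prod goodV.M evV_M _ _ _ (fun i _ => Q_InF goodV r σ τ i i) fun i hi => ?_
    rw [Multiset.mem_sort] at hi
    exact hred i (μ.parts_pos hi)
  rw [h2] at h1
  have h4 := h3.unique h1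
  have h5 := indep r s (fun i _ => hs i) _ (fun i _ => rfl) _ h4 ν
  have h6 : (⟨c ν / c ν, hν ν (Finset.mem_univ _)⟩ : V) = 1 := by
    apply Subtype.ext
    exact div_self hν0
  rw [h6, map_one] at h5
  exact one_ne_zero h5

/-! ### specialisation at `t = 1` -/

lemma regularT1_iff (F : Sym) : RegularT1 F ↔ F ∈ LR (Reg (1 : RatFunc ℚ)) := by
  rw [mem_LR_iff]
  exact ⟨fun h m => h m, fun h m => h m⟩

lemma atT1_eq {F : Sym} {f : MvPolynomial ℕ+ (RatFunc ℚ)} (h : Red (evR (1 : RatFunc ℚ)) F f) :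
    atT1 F = f := by
  classical
  obtain ⟨F', rfl, rfl⟩ := h
  ext m
  unfold atT1
  rw [coeff_sum, coeff_map]
  simp only [coeff_monomial]
  rw [Finset.sum_ite_eq' _ m]
  split_ifs with hm
  · rw [coeff_map]
    rfl
  · rw [mem_support_iff, not_not, coeff_map] at hm
    have : (evR (1 : RatFunc ℚ)) (coeff m F') = valAt 1 ((Reg (1 : RatFunc ℚ)).subtype (coeff m F')) :=
      rfl
    rw [this, hm, valAt_zero]

lemma evR_M : evR (1 : RatFunc ℚ) ⟨MK, goodReg.M⟩ = 0 := by
  rw [evR_apply]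
  show valAt 1 MK = 0
  unfold MK
  have h1 : RegAt (1 : RatFunc ℚ) (1 - qK) := (Reg _).sub_mem (Reg _).one_mem goodReg.q
  have h2 : RegAt (1 : RatFunc ℚ) (1 - tK) := (Reg _).sub_mem (Reg _).one_mem goodReg.t
  rw [valAt_mul h1 h2]
  have : valAt (1 : RatFunc ℚ) (1 - tK) = 0 := by
    rw [sub_eq_add_neg, valAt_add (Reg _).one_mem (RegAt.neg goodReg.t), valAt_one,
      valAt_neg goodReg.t]
    unfold tK
    rw [valAt_X]
    ring
  rw [this, mul_zero]

lemma Red_C (g : MvPolynomial ℕ+ (RatFunc ℚ)) :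
    Red (evR (1 : RatFunc ℚ)) (MvPolynomial.map RatFunc.C g) g := by
  let ι : RatFunc ℚ →+* Reg (1 : RatFunc ℚ) :=
    (RatFunc.C : RatFunc ℚ →+* KK).codRestrict (Reg (1 : RatFunc ℚ)) fun c => RegAt.C _ _
  refine ⟨MvPolynomial.map ι g, ?_, ?_⟩
  · rw [MvPolynomial.map_map]
    rfl
  · rw [MvPolynomial.map_map]
    have : (evR (1 : RatFunc ℚ)).comp ι = RingHom.id _ := by
      refine RingHom.ext fun c => ?_
      show valAt 1 (RatFunc.C c) = c
      exact valAt_C _ _
    rw [this, MvPolynomial.map_id]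

/-- **Main theorem.** -/
theorem main (r : ℕ) (σ τ : ℤˣ) {d : ℕ} (c : d.Partition → KK)
    (hc : IsSeed r σ τ c ∨ ∀ μ, RegAt (1 : RatFunc ℚ) (c μ)) (a b : ℕ)
    (g : MvPolynomial ℕ+ (RatFunc ℚ)) :
    RegularT1 (Theta r σ τ a b c (MvPolynomial.map RatFunc.C g)) ∧
    RegularT1 (Theta r σ τ a b c 1) ∧
    atT1 (Theta r σ τ a b c (MvPolynomial.map RatFunc.C g)) = atT1 (Theta r σ τ a b c 1) * g := by
  have hreg : ∀ μ, c μ ∈ Reg (1 : RatFunc ℚ) := by
    rcases hc with hc | hc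
    · exact fun μ => V_le_Reg (seed_regular r σ τ c hc μ)
    · exact hc
  have hA := Theta_InF goodReg r σ τ a b c hreg
  obtain ⟨f, hf⟩ := exists_Red (ev := evR (1 : RatFunc ℚ)) (hA.mem (LR _).one_mem)
  have h1 := Red.apply goodReg.M evR_M hA (Red_C g) hf
  refine ⟨(regularT1_iff _).2 h1.mem, (regularT1_iff _).2 hf.mem, ?_⟩
  rw [atT1_eq h1, atT1_eq hf, mul_comm]

end Pool.Agent.H209R2.EH
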